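import Pool.Agent.P.MP_d483fb_an.Os.Erg

open MeasureTheory Filter Topology Set

set_option linter.unusedSectionVars false
set_option linter.unusedVariables false
set_option linter.deprecated false

noncomputable section

namespace Pool.Agent.P.MP_d483fb_an.Os

variable {k Γ X V : Type} [NontriviallyNormedField k] [CompleteSpace k] [AddCommGroup Γ]
  [MeasurableSpace X] {μ : Measure X} [NormedAddCommGroup V] [NormedSpace k V]
  [FiniteDimensional k V] [ProperSpace V]

theorem unif_bound {W : Submodule k V} {p : ℕ → V → ℝ} (h0 : ∀ n, p n 0 ≤ 0)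
    (ha : ∀ n v w, p n (v + w) ≤ p n v + p n w) (hs : ∀ n (t : k) v, p n (t • v) = ‖t‖ * p n v)
    (h : ∀ v ∈ W, ∃ M, ∀ n, p n v ≤ M) : ∃ C, 0 ≤ C ∧ ∀ n, ∀ v ∈ W, p n v ≤ C * ‖v‖ := by
  let b := Module.finBasis k W
  choose M hM using fun i => h (b i) (b i).2
  let l := fun i => LinearMap.toContinuousLinearMap (b.coord i)
  refine ⟨∑ i, ‖l i‖ * |M i|, Finset.sum_nonneg fun i _ => by positivity, fun n v hv => ?_⟩
  have e : v = ∑ i, b.repr ⟨v, hv⟩ i • (b i : V) := by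
    have := congrArg W.subtype (b.sum_repr ⟨v, hv⟩)
    rw [map_sum] at this
    exact this.symm
  have h1 : p n (∑ i, b.repr ⟨v, hv⟩ i • (b i : V)) ≤ ∑ i, p n (b.repr ⟨v, hv⟩ i • (b i : V)) := by
    induction (Finset.univ : Finset (Fin (Module.finrank k W))) using Finset.cons_induction with
    | empty => simpa using h0 n
    | cons i T hi ih =>
      rw [Finset.sum_cons, Finset.sum_cons]
      exact (ha _ _ _).trans (add_le_add le_rfl ih)
  rw [← e] at h1
  rw [Finset.sum_mul]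
  refine h1.trans (Finset.sum_le_sum fun i _ => ?_)
  rw [hs, mul_right_comm]
  exact mul_le_mul ((l i).le_opNorm ⟨v, hv⟩) ((hM i n).trans (le_abs_self _)) (by
    have := ha n (b i) ((-1 : k) • (b i : V))
    have h2 := hs n (0 : k) (0 : V)
    rw [hs, neg_one_smul, add_neg_cancel, norm_neg, norm_one, one_mul] at this
    rw [zero_smul, norm_zero, zero_mul] at h2
    linarith) (by positivity)

variable {S : Sys Γ X μ}

namespace Coc

variable (c : Coc S k V) {N D D' : X → Submodule k V}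

theorem sub_O : c.Sub (O k V X) :=
  ⟨msub_const ⊥, fun _ => bot_le, fun s x v hv => by
    rw [(Submodule.mem_bot k).1 hv, map_zero]; exact zero_mem _⟩

theorem sub_E : c.Sub c.E := ⟨c.measE, fun _ => le_rfl, c.map⟩

theorem neg_apply (s : Γ) {x : X} {v : V} (hv : v ∈ c.E x) :
    c.A (-s) (S.act s x) (c.A s x v) = v := by
  rw [← c.add _ _ _ _ hv, neg_add_cancel, c.zero _ _ hv]

theorem apply_neg (s : Γ) {x : X} {w : V} (hw : w ∈ c.E (S.act s x)) :
    c.A s x (c.A (-s) (S.act s x) w) = w := by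
  have := c.add s (-s) _ _ hw
  rw [S.neg_act, add_neg_cancel, c.zero _ _ hw] at this
  exact this.symm

variable {c}

theorem Sub.inv_neg (h : c.Sub D) (s : Γ) {x : X} {w : V} (hw : w ∈ D (S.act s x)) :
    c.A (-s) (S.act s x) w ∈ D x := by
  have := h.inv (-s) _ _ hw
  rwa [S.neg_act] at this

theorem Sub.le_act (h : c.Sub D) (h' : c.Sub D') (s : Γ) {x : X} (hx : D x ≤ D' x) :
    D (S.act s x) ≤ D' (S.act s x) := fun w hw => by
  rw [← c.apply_neg s (h.le _ hw)]
  exact h'.inv s x _ (hx (h.inv_neg s hw))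

theorem Sub.not_le_act (h : c.Sub D) (h' : c.Sub D') (s : Γ) {x : X} (hx : ¬ D x ≤ D' x) :
    ¬ D (S.act s x) ≤ D' (S.act s x) := fun hl => by
  have := h.le_act h' (-s) hl
  rw [S.neg_act] at this
  exact hx this

theorem Sub.ae_or (h : c.Sub D) (h' : c.Sub D') :
    (∀ᵐ x ∂μ, ¬ D x ≤ D' x) ∨ ∀ᵐ x ∂μ, D x ≤ D' x :=
  S.ae_or (h.meas.le_set h'.meas) fun s x hx => h.le_act h' s hx

theorem Sub.of_restrict {h : c.Sub D} (h' : (c.restrict D h).Sub D') : c.Sub D' :=
  ⟨h'.meas, fun x => (h'.le x).trans (h.le x), h'.inv⟩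

theorem Sub.to_restrict (h : c.Sub D) (h' : c.Sub D') (hl : ∀ x, D' x ≤ D x) :
    (c.restrict D h).Sub D' := ⟨h'.meas, hl, h'.inv⟩

/-- replacing a vector by a shortest representative -/
theorem Sub.rep (hN : c.Sub N) (s : Γ) {x : X} {v : V} (hv : v ∈ c.E x) :
    ∃ w ∈ c.E x, ‖w‖ = qn (N x) v ∧
      qn (N (S.act s x)) (c.A s x w) = qn (N (S.act s x)) (c.A s x v) := by
  obtain ⟨u, hu, e⟩ := qn_exists (N x) v
  exact ⟨v - u, sub_mem hv (hN.le x hu), e, by rw [map_sub, qn_sub_mem (hN.inv s x u hu)]⟩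

theorem Sub.qbound (hN : c.Sub N) (s : Γ) {x : X} {v : V} (hv : v ∈ c.E x) :
    qn (N (S.act s x)) (c.A s x v) ≤ Real.exp (c.K s) * qn (N x) v := by
  obtain ⟨w, hw, e1, e2⟩ := hN.rep s hv
  rw [← e1, ← e2]
  exact (qn_le_norm _ _).trans (c.bound s x w hw)

theorem Sub.qbound_add (hN : c.Sub N) (s t : Γ) {x : X} {v : V} (hv : v ∈ c.E x) :
    qn (N (S.act (s + t) x)) (c.A (s + t) x v) ≤
      Real.exp (c.K s) * qn (N (S.act t x)) (c.A t x v) := by
  rw [c.add s t x v hv, S.add]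
  exact hN.qbound s (c.map t x v hv)

theorem Sub.qbound_pow (hN : c.Sub N) (a : Γ) (n : ℕ) (t : Γ) {x : X} {v : V} (hv : v ∈ c.E x) :
    qn (N (S.act (n • a + t) x)) (c.A (n • a + t) x v) ≤
      Real.exp (c.K a * n) * qn (N (S.act t x)) (c.A t x v) := by
  induction n with
  | zero => simp
  | succ n ih =>
    rw [succ_nsmul', add_assoc]
    refine (hN.qbound_add a _ hv).trans ?_
    rw [Nat.cast_succ, mul_add, mul_one, add_comm (c.K a * n), Real.exp_add, mul_assoc]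
    exact mul_le_mul_of_nonneg_left ih (Real.exp_pos _).le

theorem Gr.mono {a : Γ} {r r' : ℝ} {x : X} {v : V} (h : c.Gr N a r x v) (hr : r ≤ r') :
    c.Gr N a r' x v := by
  obtain ⟨M, hM⟩ := h
  refine ⟨|M|, fun n => (hM n).trans ?_⟩
  exact mul_le_mul (le_abs_self M)
    (Real.exp_le_exp.2 (mul_le_mul_of_nonneg_right hr n.cast_nonneg)) (Real.exp_pos _).le
    (abs_nonneg M)

theorem Gr.pos {a : Γ} {r : ℝ} {x : X} {v : V} (h : c.Gr N a r x v) : ∃ M : ℝ, 0 < M ∧
    ∀ n : ℕ, qn (N (S.act (n • a) x)) (c.A (n • a) x v) ≤ M * Real.exp (r * n) := by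
  obtain ⟨M, hM⟩ := h
  exact ⟨|M| + 1, by positivity, fun n => (hM n).trans (mul_le_mul_of_nonneg_right
    ((le_abs_self M).trans (le_add_of_nonneg_right zero_le_one)) (Real.exp_pos _).le)⟩

theorem Fw_mono (a : Γ) {r r' : ℝ} (hr : r ≤ r') (x : X) : c.Fw N a r x ≤ c.Fw N a r' x :=
  fun _ hv => ⟨hv.1, hv.2.mono hr⟩

theorem Sub.Fw (hN : c.Sub N) (a : Γ) (r : ℝ) : c.Sub (c.Fw N a r) := by
  refine ⟨?_, fun x v hv => hv.1, fun s x v hv => ⟨c.map s x v hv.1, ?_⟩⟩
  · refine msub_of_bdd (φ := fun n x v => max (n * qn (c.E x) v)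
      (qn (N (S.act (n • a) x)) (c.A (n • a) x v) * Real.exp (-(r * n))))
      (fun n v => (measurable_const.mul (c.measE v)).max
        (((hN.meas.comp (S.meas _)).qn_comp (sm_apply (c.measA _) v)).mul_const _))
      (fun n x => (continuous_const.mul (qn_cont _)).max
        (((qn_cont _).comp (c.A _ x).continuous).mul continuous_const)) fun x v => ?_
    simp only [mem_Fw, Gr, max_le_iff, Real.exp_neg, mul_inv_le_iff₀ (Real.exp_pos _)]
    constructor
    · rintro ⟨hv, hM⟩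
      obtain ⟨M, h0, hM⟩ := Gr.pos hM
      exact ⟨M, fun n => ⟨by rw [qn_eq_zero.2 hv, mul_zero]; exact h0.le, hM n⟩⟩
    · rintro ⟨M, hM⟩
      exact ⟨mem_of_mul_le fun n => (hM n).1, M, fun n => (hM n).2⟩
  · obtain ⟨M, hM⟩ := hv.2
    refine ⟨Real.exp (c.K s) * M, fun n => ?_⟩
    rw [← c.add _ _ _ _ hv.1, ← S.add, add_comm, mul_assoc]
    exact (hN.qbound_add s _ hv.1).trans (mul_le_mul_of_nonneg_left (hM n) (Real.exp_pos _).le)

theorem mem_Le {a : Γ} {r : ℝ} {x : X} {v : V} :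
    v ∈ c.Le N a r x ↔ v ∈ c.E x ∧ ∀ ε, 0 < ε → c.Gr N a (r + ε) x v := by
  rw [Le, Submodule.mem_iInf]
  constructor
  · intro h
    refine ⟨(h 0).1, fun ε hε => ?_⟩
    obtain ⟨j, hj⟩ := exists_nat_one_div_lt hε
    exact (h j).2.mono (by linarith)
  · exact fun h j => ⟨h.1, h.2 _ Nat.one_div_pos_of_nat⟩

theorem Sub.Le (hN : c.Sub N) (a : Γ) (r : ℝ) : c.Sub (c.Le N a r) :=
  ⟨MSub.iInf fun j => (hN.Fw a _).meas, fun x v hv => (mem_Le.1 hv).1, fun s x v hv =>
    (Submodule.mem_iInf _).2 fun j => (hN.Fw a _).inv s x v ((Submodule.mem_iInf _).1 hv j)⟩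

theorem Sub.nq_bdd (s : Γ) (x : X) : BddBelow
    {t : ℝ | 0 ≤ t ∧ ∀ v ∈ c.E x, qn (N (S.act s x)) (c.A s x v) ≤ t * qn (N x) v} :=
  ⟨0, fun _ h => h.1⟩

theorem nq_min {s : Γ} {x : X} {t : ℝ} (h0 : 0 ≤ t)
    (h : ∀ v ∈ c.E x, qn (N (S.act s x)) (c.A s x v) ≤ t * qn (N x) v) : c.nq N s x ≤ t :=
  csInf_le (Sub.nq_bdd s x) ⟨h0, h⟩

theorem nq_nonneg (s : Γ) (x : X) : 0 ≤ c.nq N s x := Real.sInf_nonneg fun _ h => h.1

theorem Sub.nq_le (hN : c.Sub N) (s : Γ) {x : X} {v : V} (hv : v ∈ c.E x) :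
    qn (N (S.act s x)) (c.A s x v) ≤ c.nq N s x * qn (N x) v := by
  rcases (qn_nonneg (N x) v).eq_or_lt with h | h
  · have := hN.qbound s hv
    rwa [← h, mul_zero] at this ⊢
  · rw [← div_le_iff₀ h]
    exact le_csInf ⟨_, (Real.exp_pos _).le, fun v hv => hN.qbound s hv⟩ fun t ht =>
      (div_le_iff₀ h).2 (ht.2 v hv)

theorem Sub.nq_le_exp (hN : c.Sub N) (s : Γ) (x : X) : c.nq N s x ≤ Real.exp (c.K s) :=
  nq_min (Real.exp_pos _).le fun v hv => hN.qbound s hv

theorem Sub.nq_add (hN : c.Sub N) (s t : Γ) (x : X) :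
    c.nq N (s + t) x ≤ c.nq N s (S.act t x) * c.nq N t x := by
  refine nq_min (mul_nonneg (nq_nonneg _ _) (nq_nonneg _ _)) fun v hv => ?_
  rw [c.add s t x v hv, S.add, mul_assoc]
  exact (hN.nq_le s (c.map t x v hv)).trans
    (mul_le_mul_of_nonneg_left (hN.nq_le t hv) (nq_nonneg _ _))

theorem Sub.nq_zero (hN : c.Sub N) (s : Γ) {x : X} (h : c.E x ≤ N x) : c.nq N s x = 0 :=
  le_antisymm (nq_min le_rfl fun v hv => by
    rw [qn_eq_zero.2 (hN.inv s x v (h hv)), zero_mul]) (nq_nonneg _ _)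

theorem Sub.exp_le_nq (hN : c.Sub N) (s : Γ) {x : X} (h : ¬ c.E x ≤ N x) :
    Real.exp (-c.K (-s)) ≤ c.nq N s x := by
  obtain ⟨v, hv, hn⟩ := SetLike.not_le_iff_exists.1 h
  have h1 := hN.qbound (-s) (c.map s x v hv)
  rw [S.neg_act, c.neg_apply s hv] at h1
  have h2 := h1.trans (mul_le_mul_of_nonneg_left (hN.nq_le s hv) (Real.exp_pos _).le)
  rw [← mul_assoc, le_mul_iff_one_le_left (qn_pos hn)] at h2
  rwa [Real.exp_neg, inv_le_iff_one_le_mul₀' (Real.exp_pos _)]

theorem Sub.nq_meas (hN : c.Sub N) (s : Γ) : Measurable (c.nq N s) := by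
  refine measurable_of_Iic fun t => ?_
  rcases lt_or_ge t 0 with ht | ht
  · convert MeasurableSet.empty
    exact eq_empty_of_forall_notMem fun x hx => absurd ((nq_nonneg s x).trans hx) (not_le.2 ht)
  have := meas_forall (f := fun x w => qn (N (S.act s x)) (c.A s x w))
    (g := fun x w => t * qn (N x) w + (t + ‖c.A s x‖) * qn (c.E x) w)
    (fun w => (hN.meas.comp (S.meas _)).qn_comp (sm_apply (c.measA _) w))
    (fun w => ((hN.meas w).const_mul t).add
      (((c.measA s).norm.measurable.const_add t).mul (c.measE w)))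
    (fun x => (qn_cont _).comp (c.A s x).continuous)
    (fun x => (continuous_const.mul (qn_cont _)).add (continuous_const.mul (qn_cont _)))
  convert this using 1
  ext x
  constructor
  · intro hx w
    obtain ⟨u, hu, e⟩ := qn_exists (c.E x) w
    have h1 := qn_add_le (N (S.act s x)) (c.A s x u) (c.A s x (w - u))
    rw [← map_add, add_sub_cancel] at h1
    have h2 := (hN.nq_le s hu).trans (mul_le_mul_of_nonneg_right hx (qn_nonneg _ _))
    have h3 := (qn_le_norm (N (S.act s x)) _).trans ((c.A s x).le_opNorm (w - u))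
    have h4 := qn_add_le (N x) w (u - w)
    rw [add_sub_cancel] at h4
    have h5 := qn_le_norm (N x) (u - w)
    rw [norm_sub_rev, e] at h5
    rw [e] at h3
    have h6 := mul_le_mul_of_nonneg_left (h4.trans (add_le_add le_rfl h5)) ht
    show _ ≤ t * qn (N x) w + (t + ‖c.A s x‖) * qn (c.E x) w
    linarith
  · intro hx
    refine nq_min ht fun v hv => ?_
    simpa only [qn_eq_zero.2 hv, mul_zero, add_zero] using hx v

/-- two sided comparison of the norms at two points of an orbit -/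
theorem Sub.nq_act (hN : c.Sub N) (t s : Γ) (x : X) :
    c.nq N t (S.act s x) ≤ Real.exp (c.K s + c.K (-s)) * c.nq N t x := by
  have h1 := hN.nq_add (s + t) (-s) (S.act s x)
  rw [S.neg_act, add_comm s t, add_neg_cancel_right, add_comm t s] at h1
  have h2 := (hN.nq_add s t x).trans
    (mul_le_mul_of_nonneg_right (hN.nq_le_exp s _) (nq_nonneg _ _))
  refine h1.trans ((mul_le_mul h2 (hN.nq_le_exp _ _) (nq_nonneg _ _)
    (mul_nonneg (Real.exp_pos _).le (nq_nonneg _ _))).trans_eq ?_)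
  rw [Real.exp_add]; ring

end Coc

end Pool.Agent.P.MP_d483fb_an.Os
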