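import Mathlib
import Pool.Agent.P.MP_eeb913_an.U.Ergodic

/-!
Higher rank multiplicative ergodic theorem for bounded cocycles over a normed field: definitions.
-/

open MeasureTheory Filter Topology Set

set_option linter.unusedSectionVars false
set_option linter.unusedVariables false
set_option linter.deprecated false

noncomputable section

namespace Pool.Agent.P.MP_d483fb_an.Os

/-- an ergodic measure preserving action of an abelian group -/
structure Sys (Γ X : Type) [AddCommGroup Γ] [MeasurableSpace X] (μ : Measure X) where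
  act : Γ → X → X
  zero : ∀ x, act 0 x = x
  add : ∀ s t x, act (s + t) x = act s (act t x)
  mp : ∀ s, MeasurePreserving (act s) μ μ
  erg : ∀ S : Set X, MeasurableSet S → (∀ s, ∀ x ∈ S, act s x ∈ S) → μ S = 0 ∨ μ Sᶜ = 0

variable {k Γ X V : Type} [NontriviallyNormedField k] [AddCommGroup Γ] [MeasurableSpace X]
  {μ : Measure X} [NormedAddCommGroup V] [NormedSpace k V]

/-- distance to a subspace -/
def qn (N : Submodule k V) (v : V) : ℝ := ‖N.mkQ v‖

/-- a measurable field of subspaces -/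
def MSub (D : X → Submodule k V) : Prop := ∀ w, Measurable fun x => qn (D x) w

/-- a bounded linear cocycle on a measurable field of subspaces -/
structure Coc (S : Sys Γ X μ) (k V : Type) [NontriviallyNormedField k] [NormedAddCommGroup V]
    [NormedSpace k V] where
  A : Γ → X → V →L[k] V
  E : X → Submodule k V
  K : Γ → ℝ
  measA : ∀ s, StronglyMeasurable (A s)
  measE : MSub E
  map : ∀ s x, ∀ v ∈ E x, A s x v ∈ E (S.act s x)
  zero : ∀ x, ∀ v ∈ E x, A 0 x v = v
  add : ∀ s t x, ∀ v ∈ E x, A (s + t) x v = A s (S.act t x) (A t x v)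
  bound : ∀ s x, ∀ v ∈ E x, ‖A s x v‖ ≤ Real.exp (K s) * ‖v‖
  K_nonneg : ∀ s, 0 ≤ K s

/-- the subspaces `D i` form a direct sum decomposition of `W` -/
structure Dec {ι : Type} [Fintype ι] (D : ι → Submodule k V) (W : Submodule k V) : Prop where
  le : ∀ i, D i ≤ W
  span : ∀ w ∈ W, ∃ v : ι → V, (∀ i, v i ∈ D i) ∧ ∑ i, v i = w
  ind : ∀ v : ι → V, (∀ i, v i ∈ D i) → ∑ i, v i = 0 → ∀ i, v i = 0

/-- the zero field -/
def O (k V : Type) [NontriviallyNormedField k] [NormedAddCommGroup V] [NormedSpace k V]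
    (X : Type) : X → Submodule k V := fun _ => ⊥

variable {S : Sys Γ X μ}

namespace Coc

/-- an invariant measurable subfield -/
structure Sub (c : Coc S k V) (D : X → Submodule k V) : Prop where
  meas : MSub D
  le : ∀ x, D x ≤ c.E x
  inv : ∀ s x, ∀ v ∈ D x, c.A s x v ∈ D (S.act s x)

/-- restriction to an invariant subfield -/
def restrict (c : Coc S k V) (D : X → Submodule k V) (h : c.Sub D) : Coc S k V where
  A := c.A
  E := D
  K := c.K
  measA := c.measA
  measE := h.meas
  map := h.inv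
  zero x v hv := c.zero x v (h.le x hv)
  add s t x v hv := c.add s t x v (h.le x hv)
  bound s x v hv := c.bound s x v (h.le x hv)
  K_nonneg := c.K_nonneg

/-- modulo `N` the vector `v` grows at most like `exp (r n)` along the multiples of `a` -/
def Gr (c : Coc S k V) (N : X → Submodule k V) (a : Γ) (r : ℝ) (x : X) (v : V) : Prop :=
  ∃ M : ℝ, ∀ n : ℕ, qn (N (S.act (n • a) x)) (c.A (n • a) x v) ≤ M * Real.exp (r * n)

/-- the vectors that grow at most like `exp (r n)` modulo `N` -/
def Fw (c : Coc S k V) (N : X → Submodule k V) (a : Γ) (r : ℝ) (x : X) : Submodule k V where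
  carrier := {v | v ∈ c.E x ∧ c.Gr N a r x v}
  add_mem' := by
    rintro v w ⟨hv, M, hM⟩ ⟨hw, M', hM'⟩
    refine ⟨add_mem hv hw, M + M', fun n => ?_⟩
    unfold qn at hM hM' ⊢
    rw [map_add, map_add, add_mul]
    exact (norm_add_le _ _).trans (add_le_add (hM n) (hM' n))
  zero_mem' := ⟨zero_mem _, 0, fun n => by simp [qn]⟩
  smul_mem' := by
    rintro t v ⟨hv, M, hM⟩
    refine ⟨Submodule.smul_mem _ t hv, ‖t‖ * M, fun n => ?_⟩
    unfold qn at hM ⊢
    rw [map_smul, map_smul, norm_smul, mul_assoc]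
    exact mul_le_mul_of_nonneg_left (hM n) (norm_nonneg t)

theorem mem_Fw {c : Coc S k V} {N : X → Submodule k V} {a : Γ} {r : ℝ} {x : X} {v : V} :
    v ∈ c.Fw N a r x ↔ v ∈ c.E x ∧ c.Gr N a r x v := Iff.rfl

/-- the vectors with upper exponent at most `r` modulo `N` -/
def Le (c : Coc S k V) (N : X → Submodule k V) (a : Γ) (r : ℝ) (x : X) : Submodule k V :=
  ⨅ j : ℕ, c.Fw N a (r + 1 / ((j : ℝ) + 1)) x

/-- forward upper exponent at most `l`, backward upper exponent at most `-l` -/
def Exact (c : Coc S k V) (D : X → Submodule k V) (a : Γ) (l : ℝ) : Prop :=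
  ∀ᵐ x ∂μ, ∀ v ∈ D x, ∀ ε : ℝ, 0 < ε →
    c.Gr (O k V X) a (l + ε) x v ∧ c.Gr (O k V X) (-a) (-l + ε) x v

/-- norm of the cocycle modulo `N` -/
def nq (c : Coc S k V) (N : X → Submodule k V) (s : Γ) (x : X) : ℝ :=
  sInf {t | 0 ≤ t ∧ ∀ v ∈ c.E x, qn (N (S.act s x)) (c.A s x v) ≤ t * qn (N x) v}

end Coc

end Pool.Agent.P.MP_d483fb_an.Os
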