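import Pool.Agent.P.MP_d483fb_an.Os.Meas

open MeasureTheory Filter Topology Set

set_option linter.unusedSectionVars false
set_option linter.unusedVariables false
set_option linter.deprecated false

noncomputable section

namespace Pool.Agent.P.MP_d483fb_an.Os

variable {k Γ X V : Type} [NontriviallyNormedField k] [CompleteSpace k] [AddCommGroup Γ]
  [MeasurableSpace X] {μ : Measure X} [NormedAddCommGroup V] [NormedSpace k V]
  [FiniteDimensional k V] [ProperSpace V]

namespace Sys

variable (S : Sys Γ X μ)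

theorem meas (s : Γ) : Measurable (S.act s) := (S.mp s).measurable

theorem neg_act (s : Γ) (x : X) : S.act (-s) (S.act s x) = x := by
  rw [← S.add, neg_add_cancel, S.zero]

theorem act_neg (s : Γ) (x : X) : S.act s (S.act (-s) x) = x := by
  rw [← S.add, add_neg_cancel, S.zero]

theorem comm (s t : Γ) (x : X) : S.act s (S.act t x) = S.act t (S.act s x) := by
  rw [← S.add, add_comm, S.add]

theorem iter (a : Γ) (n : ℕ) (x : X) : (S.act a)^[n] x = S.act (n • a) x := by
  induction n with
  | zero => rw [zero_smul, S.zero]; rfl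
  | succ n ih => rw [Function.iterate_succ_apply', ih, ← S.add, succ_nsmul']

theorem ae_act {p : X → Prop} (h : ∀ᵐ x ∂μ, p x) (s : Γ) : ∀ᵐ x ∂μ, p (S.act s x) :=
  (S.mp s).quasiMeasurePreserving.ae h

theorem ae_or {p : X → Prop} (hm : MeasurableSet {x | p x}) (hi : ∀ s x, p x → p (S.act s x)) :
    (∀ᵐ x ∂μ, ¬ p x) ∨ ∀ᵐ x ∂μ, p x := by
  rcases S.erg _ hm (fun s x hx => hi s x hx) with h | h
  · left
    rw [ae_iff]
    simpa using h
  · right
    exact h

/-- bounded increments along the action -/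
def Lip (B : Γ → ℝ) (q : X → ℝ) : Prop := ∀ s x, q (S.act s x) ≤ q x + B s

end Sys

theorem iSup_lip {ι : Type} [Nonempty ι] {f g : ι → ℝ} {B B' : ℝ} (h1 : ∀ i, f i ≤ g i + B)
    (h2 : ∀ i, g i ≤ f i + B') (hB : 0 ≤ B) : ⨆ i, f i ≤ (⨆ i, g i) + B := by
  by_cases hg : BddAbove (range g)
  · exact ciSup_le fun i => (h1 i).trans (add_le_add (le_ciSup hg i) le_rfl)
  · have hf : ¬ BddAbove (range f) := by
      rintro ⟨M, hM⟩
      exact hg ⟨M + B', by
        rintro _ ⟨i, rfl⟩
        exact (h2 i).trans (add_le_add (hM ⟨i, rfl⟩) le_rfl)⟩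
    rw [Real.iSup_of_not_bddAbove hf, Real.iSup_of_not_bddAbove hg, zero_add]
    exact hB

theorem Sys.sup_lip (S : Sys Γ X μ) {ι : Type} [Nonempty ι] {B : Γ → ℝ} (hB : ∀ s, 0 ≤ B s)
    {f : ι → X → ℝ} (h : ∀ i, S.Lip B (f i)) : S.Lip B fun x => ⨆ i, f i x := fun s x =>
  iSup_lip (fun i => h i s x) (B' := B (-s)) (fun i => by
    have := h i (-s) (S.act s x)
    rwa [S.neg_act] at this) (hB s)

theorem Sys.temper1 [IsFiniteMeasure μ] (S : Sys Γ X μ) {B : Γ → ℝ} (hB : ∀ s, 0 ≤ B s)
    {q : X → ℝ} (hq : Measurable q) (h : S.Lip B q) (a : Γ) {ε : ℝ} (hε : 0 < ε) :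
    ∃ q' : X → ℝ, Measurable q' ∧ S.Lip B q' ∧
      ∀ᵐ x ∂μ, ∀ n : ℤ, q (S.act (n • a) x) ≤ q' x + ε * |(n : ℝ)| := by
  have key : ∀ b : Γ, ∀ᵐ x ∂μ, ∃ M : ℝ, ∀ n : ℕ, q (S.act (n • b) x) ≤ M + ε * n := by
    intro b
    have := Pool.Agent.P.MP_eeb913_an.U.tempered (S.mp b) hq (B := B b + B (-b))
      (ae_of_all _ fun y => by
        have h1 := h b y
        have h2 := h (-b) (S.act b y)
        rw [S.neg_act] at h2
        rw [abs_le]
        constructor <;> linarith [hB b, hB (-b)]) hε
    simpa only [S.iter] using this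
  refine ⟨fun x => ⨆ n : ℤ, (q (S.act (n • a) x) - ε * |(n : ℝ)|),
    Measurable.iSup fun n => (hq.comp (S.meas _)).sub_const _, S.sup_lip hB fun n s x => ?_, ?_⟩
  · have := h s (S.act (n • a) x)
    rw [S.comm] at this
    linarith
  · filter_upwards [key a, key (-a)] with x ⟨M, hM⟩ ⟨M', hM'⟩ n
    have hb : BddAbove (range fun n : ℤ => q (S.act (n • a) x) - ε * |(n : ℝ)|) := by
      refine ⟨max M M', ?_⟩
      rintro _ ⟨n, rfl⟩
      obtain ⟨m, rfl | rfl⟩ := n.eq_nat_or_neg
      · have := hM m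
        simp only [natCast_zsmul, Int.cast_natCast, Nat.abs_cast]
        linarith [le_max_left M M']
      · have := hM' m
        rw [neg_nsmul] at this
        simp only [neg_smul, natCast_zsmul, Int.cast_neg, Int.cast_natCast, abs_neg, Nat.abs_cast]
        linarith [le_max_right M M']
    linarith [le_ciSup hb n]

theorem Sys.temper [IsFiniteMeasure μ] (S : Sys Γ X μ) {B : Γ → ℝ} (hB : ∀ s, 0 ≤ B s)
    {ι : Type} (a : ι → Γ) {ε : ℝ} (hε : 0 < ε) (T : Finset ι) {q : X → ℝ} (hq : Measurable q)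
    (h : S.Lip B q) : ∃ q' : X → ℝ, Measurable q' ∧ S.Lip B q' ∧
      ∀ᵐ x ∂μ, ∀ n : ι → ℤ, q (S.act (∑ j ∈ T, n j • a j) x) ≤ q' x + ε * ∑ j ∈ T, |(n j : ℝ)| := by
  classical
  induction T using Finset.induction_on with
  | empty => exact ⟨q, hq, h, ae_of_all _ fun x n => by simp [S.zero]⟩
  | insert j T hj ih =>
    obtain ⟨q1, m1, l1, h1⟩ := ih
    obtain ⟨q2, m2, l2, h2⟩ := S.temper1 hB m1 l1 (a j) hε
    refine ⟨q2, m2, l2, ?_⟩
    filter_upwards [h2, ae_all_iff.2 fun m : ℤ => S.ae_act h1 (m • a j)] with x hx2 hx1 n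
    rw [Finset.sum_insert hj, Finset.sum_insert hj, add_comm (n j • a j), S.add]
    linarith [hx1 (n j) n, hx2 (n j)]

/-- good times of Karlsson and Margulis -/
theorem good_times [IsFiniteMeasure μ] {T : X → X} (hT : MeasurePreserving T μ μ)
    {u : ℕ → X → ℝ} (hm : ∀ n, Measurable (u n)) (hi : ∀ n, Integrable (u n) μ) {B δ : ℝ}
    (hB : 0 ≤ B) (hδ : 0 < δ) (h0 : ∀ x, u 0 x ≤ 0) (hs : ∀ n x, u (n + 1) x ≤ u n (T x) + B)
    (hint : ∀ n : ℕ, δ * n ≤ ∫ x, u n x ∂μ) :
    ¬ ∀ᵐ x ∂μ, ¬ ∃ᶠ n in atTop, ∀ j ≤ n, u (n - j) (T^[j] x) ≤ u n x := by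
  intro hae
  let G : ℕ → Set X := fun n => {x | ∀ j ≤ n, u (n - j) (T^[j] x) ≤ u n x}
  have hG : ∀ n, MeasurableSet (G n) := fun n => by
    simp only [G, setOf_forall]
    exact MeasurableSet.iInter fun j => MeasurableSet.iInter fun _ =>
      measurableSet_le ((hm _).comp (hT.measurable.iterate j)) (hm n)
  let g : ℕ → X → ℝ := fun n => (G n).indicator fun _ => 1
  have g0 : ∀ n x, 0 ≤ g n x := fun n x => indicator_nonneg (fun _ _ => zero_le_one) x
  have gm : ∀ n, Measurable (g n) := fun n => measurable_const.indicator (hG n)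
  have gi : ∀ n, Integrable (g n) μ := fun n => (integrable_const 1).indicator (hG n)
  have key : ∀ n x, u n x ≤ B * ∑ i ∈ Finset.range n, g (i + 1) (T^[n - (i + 1)] x) := by
    intro n
    induction n using Nat.strong_induction_on with
    | _ n ih =>
      intro x
      by_cases hx : x ∈ G n
      · cases n with
        | zero => simpa using h0 x
        | succ n =>
          have h1 := ih n n.lt_succ_self (T x)
          have h2 : g (n + 1) x = 1 := indicator_of_mem hx _
          rw [Finset.sum_range_succ, Nat.sub_self, Function.iterate_zero, id, h2, mul_add, mul_one]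
          refine (hs n x).trans (add_le_add (h1.trans_eq ?_) le_rfl)
          congr 1
          refine Finset.sum_congr rfl fun i hi => ?_
          rw [← Function.iterate_succ_apply]
          congr 2
          have := Finset.mem_range.1 hi
          omega
      · simp only [G, mem_setOf_eq, not_forall, not_le] at hx
        obtain ⟨j, hj, hlt⟩ := hx
        have hj0 : j ≠ 0 := by
          rintro rfl
          exact lt_irrefl _ hlt
        refine hlt.le.trans ((ih (n - j) (by omega) _).trans (mul_le_mul_of_nonneg_left ?_ hB))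
        refine le_trans (le_of_eq (Finset.sum_congr rfl fun i hi => ?_))
          (Finset.sum_le_sum_of_subset_of_nonneg (Finset.range_mono (Nat.sub_le n j))
            fun i _ _ => g0 _ _)
        rw [← Function.iterate_add_apply]
        congr 2
        have := Finset.mem_range.1 hi
        omega
  have lim : Tendsto (fun n => ∫ x, g n x ∂μ) atTop (𝓝 0) := by
    have := tendsto_integral_of_dominated_convergence (μ := μ) (F := g) (f := fun _ => 0)
      (fun _ => 1) (fun n => (gm n).aestronglyMeasurable) (integrable_const 1)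
      (fun n => ae_of_all _ fun x => by
        simpa using norm_indicator_le_norm_self (fun _ : X => (1 : ℝ)) (s := G n) x) (by
        filter_upwards [hae] with x hx
        refine tendsto_const_nhds.congr' ?_
        filter_upwards [not_frequently.1 hx] with n hn
        exact (indicator_of_notMem (s := G n) hn _).symm)
    simpa using this
  have ces := ((lim.comp (tendsto_add_atTop_nat 1)).cesaro.const_mul B)
  rw [mul_zero] at ces
  obtain ⟨n, hn, hn1⟩ := ((ces.eventually (gt_mem_nhds hδ)).and (eventually_ge_atTop 1)).exists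
  have hi2 : ∀ i, Integrable (fun x => g (i + 1) (T^[n - (i + 1)] x)) μ := fun i =>
    (hT.iterate _).integrable_comp_of_integrable (gi _)
  have h1 := (hint n).trans (integral_mono (hi n)
    ((integrable_finset_sum _ fun i _ => hi2 i).const_mul B) (key n))
  rw [integral_const_mul, integral_finset_sum _ fun i _ => hi2 i] at h1
  simp only [Pool.Agent.P.MP_eeb913_an.U.erg_comp (hT.iterate _) (gm _)] at h1
  have hn0 : (0 : ℝ) < n := by exact_mod_cast hn1
  simp only [Function.comp_def] at hn
  rw [← mul_assoc, mul_comm B, mul_assoc, inv_mul_lt_iff₀ hn0] at hn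
  linarith

end Pool.Agent.P.MP_d483fb_an.Os
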