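import Pool.Agent.P.MP_d483fb_an.Os.Top

open MeasureTheory Filter Topology Set

set_option linter.unusedSectionVars false
set_option linter.unusedVariables false
set_option linter.deprecated false

noncomputable section

namespace Pool.Agent.P.MP_d483fb_an.Os

variable {k Γ X V : Type} [NontriviallyNormedField k] [CompleteSpace k] [AddCommGroup Γ]
  [MeasurableSpace X] {μ : Measure X} [NormedAddCommGroup V] [NormedSpace k V]
  [FiniteDimensional k V] [ProperSpace V]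

variable {S : Sys Γ X μ}

namespace Coc

variable {c : Coc S k V} {F D : X → Submodule k V}

theorem Sub.norm_le (hD : c.Sub D) (s : Γ) {x : X} {v : V} (hv : v ∈ D x) :
    ‖c.A s x v‖ ≤ (c.restrict D hD).nq (O k V X) s x * ‖v‖ := by
  have := (c.restrict D hD).sub_O.nq_le s hv
  rwa [qn_O, qn_O] at this

theorem Sub.orbit0 [IsFiniteMeasure μ] (hD : c.Sub D) {a : Γ} {r : ℝ}
    (h : ∀ᵐ x ∂μ, ∀ v ∈ D x, c.Gr (O k V X) a r x v) (b : Γ) {ε : ℝ} (hε : 0 < ε) :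
    ∀ᵐ x ∂μ, ∃ M : ℝ, 0 < M ∧ ∀ i n : ℕ, ∀ v ∈ D (S.act (i • b) x),
      ‖c.A (n • a) (S.act (i • b) x) v‖ ≤ M * Real.exp (r * n + ε * i) * ‖v‖ := by
  have := (c.restrict D hD).sub_O.orbit_bound (a := a) (r := r)
    (h.mono fun x hx v hv => ⟨hv, hx v hv⟩) b hε
  filter_upwards [this] with x ⟨M, h0, hM⟩
  exact ⟨M, h0, fun i n v hv =>
    (hD.norm_le _ hv).trans (mul_le_mul_of_nonneg_right (hM i n) (norm_nonneg v))⟩

theorem Sub.disj [IsFiniteMeasure μ] (hD : c.Sub D) {a : Γ} {l r : ℝ} (hr : r < l)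
    (h : ∀ᵐ x ∂μ, ∀ v ∈ D x, ∀ ε, 0 < ε → c.Gr (O k V X) (-a) (-l + ε) x v) :
    ∀ᵐ x ∂μ, ∀ v ∈ D x, c.Gr (O k V X) a r x v → v = 0 := by
  have hε : 0 < (l - r) / 3 := by linarith
  filter_upwards [hD.orbit0 (h.mono fun x hx v hv => hx v hv _ hε) a hε] with x ⟨M, h0, hM⟩ v hv
    ⟨M', hM'⟩
  have h1 : ∀ n : ℕ, ‖v‖ ≤ M * M' * Real.exp (-((l - r) / 3)) ^ n := fun n => by
    have h2 := hM n n _ (hD.inv (n • a) x v hv)
    have h3 := hM' n
    rw [neg_nsmul, c.neg_apply _ (hD.le x hv)] at h2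
    rw [qn_O] at h3
    refine h2.trans ((mul_le_mul_of_nonneg_left h3 (by positivity)).trans_eq ?_)
    rw [← Real.exp_nat_mul, mul_mul_mul_comm, ← Real.exp_add]
    congr 2; ring
  have h2 := (tendsto_pow_atTop_nhds_zero_of_lt_one (Real.exp_pos (-((l - r) / 3))).le
    (Real.exp_lt_one_iff.2 (by linarith))).const_mul (M * M')
  rw [mul_zero] at h2
  exact norm_le_zero_iff.1 (ge_of_tendsto' h2 h1)

theorem Sub.duhamel (hF : c.Sub F) {b : Γ} {ρ : ℝ} {x : X} {w : V} (hw : w ∈ c.E x)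
    (hg : c.Gr F b ρ x w) : ∃ (h : ℕ → V) (M : ℝ), 0 < M ∧ (∀ n, h n ∈ F x) ∧
      (∀ n : ℕ, ‖c.A (n • b) x (w - h n)‖ ≤ M * Real.exp (ρ * n)) ∧
      ∀ n : ℕ, ‖c.A ((n + 1) • b) x (h (n + 1) - h n)‖ ≤ M * Real.exp (ρ * n) := by
  obtain ⟨M, h0, hM⟩ := hg.pos
  choose f hf ef using fun n : ℕ => qn_exists (F (S.act (n • b) x)) (c.A (n • b) x w)
  have h1 : ∀ n : ℕ, c.A (-(n • b)) (S.act (n • b) x) (f n) ∈ F x := fun n => hF.inv_neg _ (hf n)
  have h2 : ∀ n : ℕ, ‖c.A (n • b) x (w - c.A (-(n • b)) (S.act (n • b) x) (f n))‖ ≤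
      M * Real.exp (ρ * n) := fun n => by
    rw [map_sub, c.apply_neg _ (hF.le _ (hf n)), ef]
    exact hM n
  have e1 := Real.one_le_exp (c.K_nonneg b)
  have e2 := Real.exp_pos ρ
  refine ⟨_, M * (Real.exp (c.K b) + Real.exp ρ), by positivity, h1, fun n => (h2 n).trans
    (mul_le_mul_of_nonneg_right (le_mul_of_one_le_right h0.le (by linarith)) (Real.exp_pos _).le),
    fun n => ?_⟩
  have h3 := h2 (n + 1)
  have hm := sub_mem hw (hF.le x (h1 n))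
  have h4 := (c.bound b _ _ (c.map (n • b) x _ hm)).trans
    (mul_le_mul_of_nonneg_left (h2 n) (Real.exp_pos _).le)
  rw [← c.add _ _ _ _ hm, ← succ_nsmul'] at h4
  rw [← sub_sub_sub_cancel_left _ _ w, map_sub]
  refine (norm_sub_le _ _).trans ((add_le_add h4 h3).trans_eq ?_)
  rw [Nat.cast_succ, mul_add ρ, mul_one, Real.exp_add]
  ring

/-- a vector that contracts modulo `F` contracts -/
theorem Sub.lift_same (hF : c.Sub F) {b : Γ} {ρ ε M : ℝ} (hε : 0 < ε) (h0 : 0 < M) {x : X}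
    (hM : ∀ i n : ℕ, ∀ v ∈ F (S.act (i • b) x),
      ‖c.A (n • b) (S.act (i • b) x) v‖ ≤ M * Real.exp (ρ * n + ε * i) * ‖v‖)
    {w : V} (hw : w ∈ c.E x) (hg : c.Gr F b ρ x w) : c.Gr (O k V X) b (ρ + 2 * ε) x w := by
  obtain ⟨h, M', h0', h1, h2, h3⟩ := hF.duhamel hw hg
  refine ⟨M' + M * ‖h 0‖ + M * M' * Real.exp (-ρ) / ε, fun n => ?_⟩
  have e : w = (w - h n) + h 0 + ∑ i ∈ Finset.range n, (h (i + 1) - h i) := by
    rw [Finset.sum_range_sub]; abel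
  have hn : (0 : ℝ) ≤ ε * n := by positivity
  have b0 : Real.exp (ρ * n) ≤ Real.exp ((ρ + 2 * ε) * n) := Real.exp_le_exp.2 (by linarith)
  have b1 := hM 0 n (h 0) (by rw [zero_smul, S.zero]; exact h1 0)
  rw [zero_smul, S.zero, Nat.cast_zero, mul_zero, add_zero] at b1
  have b2 : ∀ i ∈ Finset.range n, ‖c.A (n • b) x (h (i + 1) - h i)‖ ≤
      M * M' * Real.exp (-ρ) * Real.exp ((ρ + ε) * n) := by
    intro i hi
    obtain ⟨j, rfl⟩ := Nat.exists_eq_add_of_le (Finset.mem_range.1 hi : i + 1 ≤ n)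
    have hm := sub_mem (h1 (i + 1)) (h1 i)
    rw [add_comm (i + 1) j, add_smul, c.add _ _ _ _ (hF.le x hm)]
    refine (hM (i + 1) j _ (hF.inv _ x _ hm)).trans
      ((mul_le_mul_of_nonneg_left (h3 i) (by positivity)).trans ?_)
    rw [mul_mul_mul_comm, mul_assoc (M * M'), ← Real.exp_add, ← Real.exp_add]
    refine mul_le_mul_of_nonneg_left (Real.exp_le_exp.2 ?_) (by positivity)
    push_cast
    nlinarith [mul_nonneg hε.le (Nat.cast_nonneg (α := ℝ) j)]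
  have b3 := (norm_sum_le _ _).trans (Finset.sum_le_card_nsmul _ _ _ b2)
  rw [Finset.card_range, nsmul_eq_mul] at b3
  have b4 : (n : ℝ) ≤ Real.exp (ε * n) / ε := by
    rw [le_div_iff₀ hε]
    linarith [Real.add_one_le_exp (ε * n)]
  have b5 : (n : ℝ) * (M * M' * Real.exp (-ρ) * Real.exp ((ρ + ε) * n)) ≤
      M * M' * Real.exp (-ρ) / ε * Real.exp ((ρ + 2 * ε) * n) := by
    refine (mul_le_mul_of_nonneg_right b4 (by positivity)).trans_eq ?_
    rw [show (ρ + 2 * ε) * n = ε * n + (ρ + ε) * n by ring, Real.exp_add (ε * n)]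
    ring
  rw [qn_O, e, map_add, map_add, map_sum, add_mul, add_mul]
  refine (norm_add₃_le).trans (add_le_add (add_le_add ((h2 n).trans ?_) (b1.trans ?_)) (b3.trans b5))
  · exact mul_le_mul_of_nonneg_left b0 h0'.le
  · rw [mul_right_comm]
    exact mul_le_mul_of_nonneg_left b0 (by positivity)

/-- a vector that grows slowly modulo the expanding field `F` has a slow representative -/
theorem Sub.lift_gap (hF : c.Sub F) {a : Γ} {ρ l ε M : ℝ} (hε : 0 < ε) (hl : ρ + 2 * ε < l)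
    (h0 : 0 < M) {x : X} (hM : ∀ i n : ℕ, ∀ v ∈ F (S.act (i • a) x),
      ‖c.A (n • (-a)) (S.act (i • a) x) v‖ ≤ M * Real.exp ((-l + ε) * n + ε * i) * ‖v‖)
    {w : V} (hw : w ∈ c.E x) (hg : c.Gr F a ρ x w) :
    ∃ f ∈ F x, c.Gr (O k V X) a (ρ + ε) x (w - f) := by
  obtain ⟨h, M', h0', h1, h2, h3⟩ := hF.duhamel hw hg
  have hθ : Real.exp (-l + 2 * ε + ρ) < 1 := Real.exp_lt_one_iff.2 (by linarith)
  have key : ∀ n j : ℕ, dist (c.A (n • a) x (h (j + n))) (c.A (n • a) x (h (j + 1 + n))) ≤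
      M * M' * Real.exp (-l + 2 * ε) * Real.exp ((ρ + ε) * n) * Real.exp (-l + 2 * ε + ρ) ^ j := by
    intro n j
    have hm := sub_mem (h1 (j + n + 1)) (h1 (j + n))
    have e : n • a = (j + 1) • (-a) + (j + n + 1) • a := by
      rw [neg_nsmul, eq_neg_add_iff_add_eq, ← add_smul]
      congr 1; omega
    rw [dist_comm, dist_eq_norm, ← map_sub, add_right_comm j 1 n, e, c.add _ _ _ _ (hF.le x hm)]
    refine (hM _ (j + 1) _ (hF.inv _ x _ hm)).trans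
      ((mul_le_mul_of_nonneg_left (h3 _) (by positivity)).trans_eq ?_)
    rw [mul_mul_mul_comm, mul_assoc (M * M'), mul_assoc (M * M'), ← Real.exp_nat_mul,
      ← Real.exp_add, ← Real.exp_add, ← Real.exp_add]
    congr 2
    push_cast
    ring
  have hc : CauchySeq h := cauchySeq_of_le_geometric _ _ hθ fun j => by
    have := key 0 j
    rwa [zero_smul, add_zero, add_zero, c.zero x _ (hF.le x (h1 _)),
      c.zero x _ (hF.le x (h1 _))] at this
  obtain ⟨f, hf⟩ := cauchySeq_tendsto_of_complete hc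
  refine ⟨f, (F x).closed_of_finiteDimensional.mem_of_tendsto hf (Eventually.of_forall h1),
    M' + M * M' * Real.exp (-l + 2 * ε) / (1 - Real.exp (-l + 2 * ε + ρ)), fun n => ?_⟩
  have b1 := dist_le_of_le_geometric_of_tendsto₀ _ _ hθ (key n)
    (((c.A (n • a) x).continuous.tendsto f).comp (hf.comp (tendsto_add_atTop_nat n)))
  rw [zero_add, dist_eq_norm, ← map_sub] at b1
  have b0 : Real.exp (ρ * n) ≤ Real.exp ((ρ + ε) * n) :=
    Real.exp_le_exp.2 (by nlinarith [mul_nonneg hε.le (Nat.cast_nonneg (α := ℝ) n)])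
  rw [qn_O, ← sub_add_sub_cancel w (h n) f, map_add, add_mul]
  refine (norm_add_le _ _).trans (add_le_add
    ((h2 n).trans (mul_le_mul_of_nonneg_left b0 h0'.le)) (b1.trans_eq ?_))
  ring

/-- splitting off the top exponent -/
theorem two_block [IsProbabilityMeasure μ] (c : Coc S k V) (a : Γ)
    (hne : ∀ᵐ x ∂μ, ¬ c.E x ≤ O k V X x) : ∃ (l : ℝ) (G : X → Submodule k V), c.Sub G ∧
      c.Exact (c.Le (O k V X) (-a) (-l)) a l ∧ ∀ᵐ x ∂μ, ¬ c.Le (O k V X) (-a) (-l) x ≤ ⊥ ∧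
        (∀ v ∈ c.Le (O k V X) (-a) (-l) x, v ∈ G x → v = 0) ∧
        ∀ w ∈ c.E x, ∃ f ∈ c.Le (O k V X) (-a) (-l) x, w - f ∈ G x := by
  obtain ⟨l, h1, h2⟩ := c.sub_O.top a hne
  have hF := c.sub_O.Le (-a) (-l)
  have hFb : ∀ ε, 0 < ε → ∀ᵐ x ∂μ, ∀ v ∈ c.Le (O k V X) (-a) (-l) x,
      c.Gr (O k V X) (-a) (-l + ε) x v := fun ε hε =>
    ae_of_all _ fun x v hv => (mem_Le.1 hv).2 ε hε
  obtain ⟨ρ, hρ, h3⟩ : ∃ ρ < l, ∀ᵐ x ∂μ, c.E x ≤ c.Fw (c.Le (O k V X) (-a) (-l)) a ρ x := by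
    rcases c.sub_E.ae_or hF with h | h
    · obtain ⟨l', h3, h4⟩ := hF.top a h
      rcases lt_or_ge l' l with hl | hl
      · exact ⟨(l' + l) / 2, by linarith, h3 _ (by linarith)⟩
      exfalso
      have h5 : ∀ j : ℕ, ∀ᵐ x ∂μ, c.Le (c.Le (O k V X) (-a) (-l)) (-a) (-l') x ≤
          c.Fw (O k V X) (-a) (-l + 1 / ((j : ℝ) + 1)) x := by
        intro j
        have h0 : (0 : ℝ) < 1 / ((j : ℝ) + 1) / 3 := by positivity
        filter_upwards [hF.orbit0 (hFb _ h0) (-a) h0] with x ⟨M, hM0, hM⟩ w hw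
        obtain ⟨hw1, hw2⟩ := mem_Le.1 hw
        exact ⟨hw1, (hF.lift_same h0 hM0 hM hw1 ((hw2 _ h0).mono (by linarith))).mono (by linarith)⟩
      obtain ⟨x, hx1, hx2⟩ := (h4.and (ae_all_iff.2 h5)).exists
      exact hx1 (le_iInf hx2)
    · refine ⟨l - 1, by linarith, h.mono fun x hx v hv => ⟨hv, 0, fun n => ?_⟩⟩
      rw [qn_eq_zero.2 (hF.inv _ x v (hx hv)), zero_mul]
  have hε : 0 < (l - ρ) / 3 := by linarith
  refine ⟨l, c.Fw (O k V X) a (ρ + (l - ρ) / 3), c.sub_O.Fw _ _, ?_, ?_⟩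
  · filter_upwards [ae_all_iff.2 fun j : ℕ => h1 (l + 1 / ((j : ℝ) + 1))
      (lt_add_of_pos_right l Nat.one_div_pos_of_nat)] with x hx v hv ε hε
    have h4 : v ∈ c.Le (O k V X) a l x := (Submodule.mem_iInf _).2 fun j => hx j (hF.le x hv)
    exact ⟨(mem_Le.1 h4).2 ε hε, (mem_Le.1 hv).2 ε hε⟩
  · filter_upwards [h2, h3, hF.orbit0 (hFb _ hε) a hε, hF.disj (r := ρ + (l - ρ) / 3) (l := l)
      (by linarith) (ae_of_all _ fun x v hv => (mem_Le.1 hv).2)] with x x2 x3 ⟨M, hM0, hM⟩ x5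
    refine ⟨x2, fun v hv hG => x5 v hv hG.2, fun w hw => ?_⟩
    obtain ⟨f, hf, hg⟩ := hF.lift_gap hε (by linarith) hM0 hM hw (x3 hw).2
    exact ⟨f, hf, sub_mem hw (hF.le x hf), hg⟩

end Coc

end Pool.Agent.P.MP_d483fb_an.Os
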