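import Pool.Agent.P.MP_d483fb_an.Os.Proj

open MeasureTheory Filter Topology Set

set_option linter.unusedSectionVars false
set_option linter.unusedVariables false
set_option linter.deprecated false

noncomputable section

namespace Pool.Agent.P.MP_d483fb_an.Os

variable {k Γ X V : Type} [NontriviallyNormedField k] [CompleteSpace k] [AddCommGroup Γ]
  [MeasurableSpace X] {μ : Measure X} [NormedAddCommGroup V] [NormedSpace k V]
  [FiniteDimensional k V] [ProperSpace V]

/-- lattice point -/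
def pt {m : ℕ} (a : Fin m → Γ) (n : Fin m → ℤ) : Γ := ∑ j, n j • a j

/-- size of an integer vector -/
def n1 {m : ℕ} (n : Fin m → ℤ) : ℝ := ∑ j, |(n j : ℝ)|

theorem pt_add {m : ℕ} (a : Fin m → Γ) (n u : Fin m → ℤ) : pt a (n + u) = pt a n + pt a u := by
  simp only [pt, Pi.add_apply, add_smul, Finset.sum_add_distrib]

theorem pt_zero {m : ℕ} (a : Fin m → Γ) : pt a 0 = 0 := by simp [pt]

theorem n1_zero {m : ℕ} : n1 (0 : Fin m → ℤ) = 0 := by simp [n1]

theorem n1_nonneg {m : ℕ} (n : Fin m → ℤ) : 0 ≤ n1 n := Finset.sum_nonneg fun _ _ => abs_nonneg _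

theorem n1_add {m : ℕ} (n u : Fin m → ℤ) : n1 (n + u) ≤ n1 n + n1 u := by
  simp only [n1, Pi.add_apply, Int.cast_add, ← Finset.sum_add_distrib]
  exact Finset.sum_le_sum fun j _ => abs_add_le _ _

theorem Sys.slow (S : Sys Γ X μ) {m : ℕ} (a : Fin m → Γ) {B : Γ → ℝ} (hB : ∀ s, 0 ≤ B s)
    {κ : Type} [Countable κ] {f : κ → X → ℝ} (hm : ∀ i, Measurable (f i))
    (hl : ∀ i, S.Lip B (f i)) {ε : ℝ} (hε : 0 ≤ ε)
    (hae : ∀ᵐ x ∂μ, ∃ M, ∀ i n, f i (S.act (pt a n) x) ≤ M + ε * n1 n) :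
    ∃ (Z : Set X) (q : X → ℝ), MeasurableSet Z ∧ (∀ᵐ x ∂μ, x ∈ Z) ∧
      (∀ s, ∀ x ∈ Z, S.act s x ∈ Z) ∧ Measurable q ∧ (∀ x, 0 ≤ q x) ∧ S.Lip B q ∧
      ∀ x ∈ Z, (∀ i, f i x ≤ q x) ∧ ∀ n, q (S.act (pt a n) x) ≤ q x + ε * n1 n := by
  let F : Option κ × (Fin m → ℤ) → X → ℝ := fun o x =>
    o.1.elim 0 (fun i => f i (S.act (pt a o.2) x)) - ε * n1 o.2
  have Fm : ∀ o, Measurable (F o) := by
    rintro ⟨_ | i, n⟩
    · exact measurable_const (a := 0 - ε * n1 n)
    · exact ((hm i).comp (S.meas _)).sub_const _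
  have Fl : ∀ o, S.Lip B (F o) := by
    rintro ⟨_ | i, n⟩ s x
    · exact le_add_of_nonneg_right (hB s)
    · have := hl i s (S.act (pt a n) x)
      rw [S.comm] at this
      simp only [F, Option.elim]
      linarith
  refine ⟨{x | BddAbove (range fun o => F o x)}, fun x => ⨆ o, F o x,
    measurableSet_bddAbove_range Fm, hae.mono fun x ⟨M, hM⟩ => ⟨max M 0, ?_⟩,
    fun s x ⟨M, hM⟩ => ⟨M + B s, ?_⟩, Measurable.iSup Fm,
    fun x => Real.iSup_nonneg' ⟨(none, 0), by simp [F, n1_zero]⟩, S.sup_lip hB Fl,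
    fun x hx => ⟨fun i => ?_, fun u => ciSup_le fun o => ?_⟩⟩
  · rintro _ ⟨⟨_ | i, n⟩, rfl⟩
    · simp only [F, Option.elim]
      linarith [le_max_right M 0, mul_nonneg hε (n1_nonneg n)]
    · simp only [F, Option.elim]
      linarith [le_max_left M 0, hM i n]
  · rintro _ ⟨o, rfl⟩
    exact (Fl o s x).trans (add_le_add (hM ⟨o, rfl⟩) le_rfl)
  · have := le_ciSup hx (some i, 0)
    simpa only [F, Option.elim, pt_zero, n1_zero, S.zero, mul_zero, sub_zero] using this
  · refine le_trans ?_ (add_le_add (le_ciSup hx (o.1, o.2 + u)) le_rfl)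
    simp only [F, pt_add, S.add]
    linarith [mul_le_mul_of_nonneg_left (n1_add o.2 u) hε]

variable {S : Sys Γ X μ}

namespace Coc

variable {c : Coc S k V}

theorem two_sided {a : Γ} {l : ℝ} (h : c.Exact c.E a l) {ε : ℝ} (hε : 0 < ε) :
    ∃ q : X → ℝ, Measurable q ∧ (∀ x, 0 ≤ q x) ∧ S.Lip c.B q ∧ ∀ᵐ x ∂μ, ∀ n : ℤ,
      c.nq (O k V X) (n • a) x ≤ Real.exp (q x + l * n + ε * |(n : ℝ)|) := by
  obtain ⟨q1, m1, p1, l1, h1⟩ := c.sub_O.lip_bound (a := a) (r := l + ε)
    (h.mono fun x hx v hv => ⟨hv, (hx v hv ε hε).1⟩)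
  obtain ⟨q2, m2, p2, l2, h2⟩ := c.sub_O.lip_bound (a := -a) (r := -l + ε)
    (h.mono fun x hx v hv => ⟨hv, (hx v hv ε hε).2⟩)
  refine ⟨fun x => max (q1 x) (q2 x), m1.max m2, fun x => le_max_of_le_left (p1 x), fun s x => ?_, ?_⟩
  · rw [← max_add_add_right]
    exact max_le_max (l1 s x) (l2 s x)
  · filter_upwards [h1, h2] with x x1 x2 n
    obtain ⟨j, rfl | rfl⟩ := n.eq_nat_or_neg
    · simp only [natCast_zsmul, Int.cast_natCast, Nat.abs_cast]
      exact (x1 j).trans (Real.exp_le_exp.2 (by linarith [le_max_left (q1 x) (q2 x)]))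
    · have := x2 j
      rw [neg_nsmul] at this
      simp only [neg_smul, natCast_zsmul, Int.cast_neg, Int.cast_natCast, abs_neg, Nat.abs_cast]
      exact this.trans (Real.exp_le_exp.2 (by linarith [le_max_right (q1 x) (q2 x)]))

theorem lattice_bound [IsFiniteMeasure μ] {m : ℕ} {a : Fin m → Γ} {l : Fin m → ℝ}
    (h : ∀ j, c.Exact c.E (a j) (l j)) {ε : ℝ} (hε : 0 < ε) : ∀ᵐ x ∂μ, ∃ M : ℝ, ∀ n u,
      c.nq (O k V X) (pt a n) (S.act (pt a u) x) ≤
        Real.exp (M + ∑ j, l j * n j + ε * (n1 n + n1 u)) := by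
  classical
  have hm : (0 : ℝ) < m + 1 := by positivity
  have hε' : 0 < ε / (m + 1) := div_pos hε hm
  choose q qm q0 ql hq using fun j => two_sided (h j) hε'
  obtain ⟨q', -, -, h1⟩ := S.temper (B := fun s => m * c.B s)
    (fun s => mul_nonneg m.cast_nonneg (c.B_nonneg s)) a hε' Finset.univ
    (q := fun x => ∑ j, q j x) (Finset.measurable_sum _ fun j _ => qm j) (fun s x => by
      refine (Finset.sum_le_sum fun j _ => ql j s x).trans_eq ?_
      rw [Finset.sum_add_distrib, Finset.sum_const, Finset.card_univ, Fintype.card_fin,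
        nsmul_eq_mul])
  filter_upwards [h1, ae_all_iff.2 fun u : Fin m → ℤ => ae_all_iff.2 fun j =>
    S.ae_act (hq j) (pt a u)] with x x1 x2
  refine ⟨m * |q' x|, fun n u => ?_⟩
  have key : ∀ T : Finset (Fin m), c.nq (O k V X) (∑ j ∈ T, n j • a j) (S.act (pt a u) x) ≤
      Real.exp (T.card * (|q' x| + ε / (m + 1) * (n1 n + n1 u)) +
        ∑ j ∈ T, (l j * n j + ε / (m + 1) * |(n j : ℝ)|)) := by
    intro T
    induction T using Finset.induction_on with
    | empty => simpa using c.sub_O.nq_zero_le _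
    | insert j T hj ih =>
      let w : Fin m → ℤ := fun i => if i ∈ T then n i else 0
      have e : ∑ j ∈ T, n j • a j = pt a w := by
        simp only [pt, w, ite_smul, zero_smul, Finset.sum_ite_mem, Finset.univ_inter]
      have hw : n1 w ≤ n1 n := Finset.sum_le_sum fun i _ => by
        simp only [w]
        split_ifs <;> simp
      have h2 := x2 (w + u) j (n j)
      have h3 : ∑ i, q i (S.act (pt a (w + u)) x) ≤ q' x + ε / (m + 1) * n1 (w + u) := x1 (w + u)
      have h4 := Finset.single_le_sum (f := fun i => q i (S.act (pt a (w + u)) x))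
        (fun i _ => q0 i _) (Finset.mem_univ j)
      have h5 := mul_le_mul_of_nonneg_left ((n1_add w u).trans (add_le_add hw le_rfl)) hε'.le
      rw [Finset.sum_insert hj, Finset.sum_insert hj, Finset.card_insert_of_notMem hj]
      refine (c.sub_O.nq_add _ _ _).trans ?_
      rw [e, ← S.add, ← pt_add]
      rw [e] at ih
      refine (mul_le_mul h2 ih (nq_nonneg _ _) (Real.exp_pos _).le).trans ?_
      rw [← Real.exp_add, Real.exp_le_exp]
      push_cast
      linarith [le_abs_self (q' x)]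
  refine (key Finset.univ).trans (Real.exp_le_exp.2 ?_)
  rw [Finset.card_univ, Fintype.card_fin, Finset.sum_add_distrib, ← Finset.mul_sum]
  have h6 : ε * (n1 n + n1 u) = (m + 1) * (ε / (m + 1) * (n1 n + n1 u)) := by field_simp
  have h7 := mul_nonneg hε'.le (n1_nonneg u)
  rw [h6]
  change _ + (_ + ε / (m + 1) * n1 n) ≤ _
  linarith

/-- one slowly varying function for all the blocks and projections -/
theorem exists_slow [IsFiniteMeasure μ] {ι : Type} [Fintype ι] {D : ι → X → Submodule k V}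
    (hD : ∀ i, c.Sub (D i)) {m : ℕ} {a : Fin m → Γ} {l : ι → Fin m → ℝ}
    (h : ∀ i j, c.Exact (D i) (a j) (l i j)) {P : ι → X → V →L[k] V}
    (hP : ∀ i, StronglyMeasurable (P i)) (hP' : ∀ i, S.Lip c.B fun x => Real.log (max 1 ‖P i x‖))
    {ε : ℝ} (hε : 0 < ε) : ∃ (Z : Set X) (q : X → ℝ), MeasurableSet Z ∧ (∀ᵐ x ∂μ, x ∈ Z) ∧
      (∀ s, ∀ x ∈ Z, S.act s x ∈ Z) ∧ Measurable q ∧ (∀ x, 0 ≤ q x) ∧ S.Lip c.B q ∧
      ∀ x ∈ Z, (∀ n, q (S.act (pt a n) x) ≤ q x + ε * n1 n) ∧ ∀ i, ‖P i x‖ ≤ Real.exp (q x) ∧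
        ∀ n, ∀ v ∈ D i x,
          ‖c.A (pt a n) x v‖ ≤ Real.exp (q x + ∑ j, l i j * n j + ε * n1 n) * ‖v‖ := by
  let f : ι × Option (Fin m → ℤ) → X → ℝ := fun o x => Real.log (max 1 (o.2.elim ‖P o.1 x‖
    fun n => (c.restrict (D o.1) (hD o.1)).nq (O k V X) (pt a n) x *
      Real.exp (-(∑ j, l o.1 j * n j + ε * n1 n))))
  have hle : ∀ {y t : ℝ}, Real.log (max 1 y) ≤ t → y ≤ Real.exp t := fun h =>
    (le_max_right _ _).trans ((Real.log_le_iff_le_exp (lt_max_of_lt_left one_pos)).1 h)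
  obtain ⟨Z, q, z1, z2, z3, z4, z5, z6, z7⟩ := S.slow a c.B_nonneg (f := f) (ε := ε) (by
      rintro ⟨i, _ | n⟩
      · exact (measurable_const.max (hP i).norm.measurable).log
      · exact (measurable_const.max (((c.restrict _ (hD i)).sub_O.nq_meas _).mul_const _)).log)
    (by
      rintro ⟨i, _ | n⟩
      · exact hP' i
      · refine fun s x => log_max_le (c.B_nonneg s) ?_
        simp only [Option.elim]
        rw [← mul_assoc]
        exact mul_le_mul_of_nonneg_right ((c.restrict _ (hD i)).sub_O.nq_act _ s x)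
          (Real.exp_pos _).le) hε.le (by
      choose p _ _ hp using fun i => S.temper c.B_nonneg a hε Finset.univ
        (measurable_const.max (hP i).norm.measurable).log (hP' i)
      filter_upwards [ae_all_iff.2 hp, ae_all_iff.2 fun i =>
        lattice_bound (c := c.restrict _ (hD i)) (h i) hε] with x x1 x2
      choose M hM using x2
      refine ⟨∑ i, (|p i x| + |M i|), ?_⟩
      rintro ⟨i, o⟩ u
      have h1 := Finset.single_le_sum (f := fun i => |p i x| + |M i|)
        (fun i _ => by positivity) (Finset.mem_univ i)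
      have h2 := mul_nonneg hε.le (n1_nonneg u)
      cases o with
      | none =>
        refine (x1 i u).trans ?_
        change _ + ε * n1 u ≤ _
        linarith [le_abs_self (p i x), abs_nonneg (M i)]
      | some n =>
        rw [Real.log_le_iff_le_exp (lt_max_of_lt_left one_pos)]
        refine max_le (Real.one_le_exp (by linarith [abs_nonneg (p i x), abs_nonneg (M i)])) ?_
        refine (mul_le_mul_of_nonneg_right (hM i n u) (Real.exp_pos _).le).trans ?_
        rw [← Real.exp_add, Real.exp_le_exp]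
        linarith [le_abs_self (M i), abs_nonneg (p i x)])
  refine ⟨Z, q, z1, z2, z3, z4, z5, z6, fun x hx => ⟨(z7 x hx).2, fun i =>
    ⟨hle ((z7 x hx).1 (i, none)), fun n v hv => ((hD i).norm_le _ hv).trans
      (mul_le_mul_of_nonneg_right ?_ (norm_nonneg v))⟩⟩⟩
  have := hle ((z7 x hx).1 (i, some n))
  simp only [Option.elim] at this
  rwa [Real.exp_neg, mul_inv_le_iff₀ (Real.exp_pos _), ← Real.exp_add, ← add_assoc] at this

end Coc

end Pool.Agent.P.MP_d483fb_an.Os
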