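import Pool.Agent.P.MP_d483fb_an.Os.Out
import Pool.Agent.P.MP_d483fb_an.Os.Unif

open MeasureTheory Filter Topology Set

set_option linter.unusedSectionVars false
set_option linter.unusedVariables false
set_option linter.deprecated false

noncomputable section

namespace Pool.Agent.P.MP_d483fb_an.Os

variable {k Γ X V : Type} [NontriviallyNormedField k] [CompleteSpace k] [SeminormedAddCommGroup Γ]
  [MeasurableSpace X] {μ : Measure X} [NormedAddCommGroup V] [NormedSpace k V]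
  [FiniteDimensional k V] [ProperSpace V]

theorem Gen.R_nonneg (g : Gen Γ) : 0 ≤ g.R := (norm_nonneg _).trans (g.rem_le 0)

theorem Gen.split (g : Gen Γ) (s : Γ) : ∃ (r : Γ) (n : Fin g.m → ℤ), s = r + pt g.a n ∧
    ‖r‖ ≤ g.R ∧ n1 n ≤ g.m * (g.R * ‖s‖ + 1) ∧ ∀ j, |(n j : ℝ) - g.l s j| ≤ 1 := by
  have h : ∀ j, |((⌊g.l s j⌋ : ℤ) : ℝ) - g.l s j| ≤ 1 := fun j => by
    rw [abs_le]
    constructor <;> linarith [Int.floor_le (g.l s j), Int.lt_floor_add_one (g.l s j)]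
  refine ⟨s - pt g.a fun j => ⌊g.l s j⌋, fun j => ⌊g.l s j⌋, (sub_add_cancel _ _).symm,
    g.rem_le s, ?_, h⟩
  refine (Finset.sum_le_card_nsmul _ _ (g.R * ‖s‖ + 1) fun j _ => ?_).trans_eq ?_
  · have := abs_sub_abs_le_abs_sub ((⌊g.l s j⌋ : ℤ) : ℝ) (g.l s j)
    linarith [h j, g.l_le s j]
  · rw [Finset.card_univ, Fintype.card_fin, nsmul_eq_mul]

/-- linear form with given values on the generators -/
def Gen.form (g : Gen Γ) (l : Fin g.m → ℝ) : Γ →+ ℝ where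
  toFun s := ∑ j, l j * g.l s j
  map_zero' := by simp
  map_add' s t := by simp only [map_add, Pi.add_apply, mul_add, Finset.sum_add_distrib]

theorem Gen.form_a (g : Gen Γ) (l : Fin g.m → ℝ) (j : Fin g.m) : g.form l (g.a j) = l j := by
  change ∑ i, l i * g.l (g.a j) i = _
  simp [g.l_a, Pi.single_apply]

theorem Gen.form_le (g : Gen Γ) (l : Fin g.m → ℝ) (s : Γ) :
    |g.form l s| ≤ (∑ j, |l j|) * g.R * ‖s‖ := by
  refine (Finset.abs_sum_le_sum_abs (fun j => l j * g.l s j) Finset.univ).trans ?_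
  rw [mul_assoc, Finset.sum_mul]
  refine Finset.sum_le_sum fun j _ => ?_
  rw [abs_mul]
  exact mul_le_mul_of_nonneg_left (g.l_le s j) (abs_nonneg _)

theorem Gen.form_near (g : Gen Γ) (l : Fin g.m → ℝ) {s : Γ} {n : Fin g.m → ℤ}
    (h : ∀ j, |(n j : ℝ) - g.l s j| ≤ 1) : ∑ j, l j * n j ≤ g.form l s + ∑ j, |l j| := by
  change _ ≤ ∑ j, l j * g.l s j + _
  rw [← Finset.sum_add_distrib]
  refine Finset.sum_le_sum fun j _ => ?_
  have := (le_abs_self _).trans ((abs_mul (l j) _).trans_le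
    (mul_le_of_le_one_right (abs_nonneg _) (h j)))
  linarith

/-- Multiplicative ergodic theorem for bounded cocycles over `ℤ`, `ℤ^m`, `ℝ^m`. -/
theorem oseledets [IsProbabilityMeasure μ] {S : Sys Γ X μ} (g : Gen Γ) (c : Coc S k V)
    (hE : ∀ x, c.E x = ⊤) {L : ℝ} (hL : ∀ s, c.K s ≤ L * (‖s‖ + 1)) :
    ∃ (ι : Type) (_ : Fintype ι), Nonempty (Ose c ι) := by
  classical
  obtain ⟨ι, _, D, l, hb, hinj, hex⟩ := c.multi_split g.m g.a
  obtain ⟨Z, P, d, z1, z2, z3, hP, hd, hP', hZ⟩ := hb.proj hE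
  have hpos : ∀ j : ℕ, (0 : ℝ) < 1 / (j + 1) := fun j => by positivity
  choose W q w1 w2 w3 q1 q2 q3 hq using fun j : ℕ => Coc.exists_slow hb.sub hex hP hP' (hpos j)
  have hR := g.R_nonneg
  have hL0 : 0 ≤ L := by simpa using (c.K_nonneg 0).trans (hL 0)
  have hK : ∀ r, ‖r‖ ≤ g.R → c.K r ≤ L * (g.R + 1) := fun r hr =>
    (hL r).trans (mul_le_mul_of_nonneg_left (add_le_add hr le_rfl) hL0)
  have hK0 : 0 ≤ L * (g.R + 1) := by positivity
  set Λ := ∑ i, ∑ j, |l i j| with hΛ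
  have hΛi : ∀ i, ∑ j, |l i j| ≤ Λ := fun i => Finset.single_le_sum
    (f := fun i => ∑ j, |l i j|) (fun i _ => by positivity) (Finset.mem_univ i)
  have hΛ0 : 0 ≤ Λ := by positivity
  have hm : (0 : ℝ) ≤ g.m := g.m.cast_nonneg
  have mem : ∀ x v, v ∈ c.E x := fun x v => by rw [hE]; exact Submodule.mem_top
  refine ⟨ι, inferInstance, ⟨⟨D, P, fun i => g.form (l i), Z ∩ ⋂ j, W j,
    g.m + 2 * (L * (g.R + 1)) + Λ * g.R, d, fun i i' e => hinj (funext fun j => ?_),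
    fun i s => (g.form_le _ s).trans (mul_le_mul_of_nonneg_right ?_ (norm_nonneg s)),
    by positivity, hb.sub, hP, z1.inter (MeasurableSet.iInter w1), ?_,
    fun s x hx => ⟨z3 s x hx.1, mem_iInter.2 fun j => w3 j s x (mem_iInter.1 hx.2 j)⟩,
    fun x hx => (hZ x hx.1).1, hd, fun x hx => (hZ x hx.1).2.1, fun x hx => (hZ x hx.1).2.2.1,
    fun x hx => (hZ x hx.1).2.2.2.1, fun x hx i v hv => ?_, fun x hx i j hij v hv => ?_,
    fun x hx => (hZ x hx.1).2.2.2.2, fun ε hε => ?_⟩⟩⟩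
  · rw [← g.form_a (l i), ← g.form_a (l i')]
    exact DFunLike.congr_fun e _
  · linarith [mul_le_mul_of_nonneg_right (hΛi i) hR]
  · filter_upwards [z2, ae_all_iff.2 w2] with x x1 x2 using ⟨x1, mem_iInter.2 x2⟩
  · rw [(hZ x hx.1).1.proj_eq (hZ x hx.1).2.2.1 (hZ x hx.1).2.2.2.1 hv, Pi.single_eq_same]
  · rw [(hZ x hx.1).1.proj_eq (hZ x hx.1).2.2.1 (hZ x hx.1).2.2.2.1 hv, Pi.single_eq_of_ne hij]
  obtain ⟨j, hj⟩ := exists_nat_one_div_lt (K := ℝ) (ε := ε / (2 * (g.m * g.R + 1)))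
    (by positivity)
  have h1 : (1 : ℝ) / (j + 1) ≤ 1 := by
    rw [div_le_one (by positivity)]
    linarith [j.cast_nonneg (α := ℝ)]
  have h2 : ∀ (s : Γ) (n : Fin g.m → ℤ), n1 n ≤ g.m * (g.R * ‖s‖ + 1) →
      1 / (j + 1) * n1 n ≤ ε / 2 * ‖s‖ + g.m := fun s n hn => by
    rw [lt_div_iff₀ (by positivity)] at hj
    have h3 : 1 / (j + 1 : ℝ) * (g.m * g.R) ≤ ε / 2 := by linarith [hpos j]
    have h4 := mul_le_mul_of_nonneg_right h3 (norm_nonneg s)
    have h5 := mul_le_mul_of_nonneg_right h1 hm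
    linarith [mul_le_mul_of_nonneg_left hn (hpos j).le]
  have slow : ∀ s, ∀ x ∈ W j, q j (S.act s x) ≤
      q j x + ε / 2 * ‖s‖ + (g.m + 2 * (L * (g.R + 1))) := fun s x hx => by
    obtain ⟨r, n, e, hr, hn, -⟩ := g.split s
    have h3 := q3 j r (S.act (pt g.a n) x)
    rw [← S.add, ← e, Coc.B] at h3
    linarith [(hq j x hx).1 n, h2 s n hn, hK r hr, hK (-r) (by rwa [norm_neg])]
  have up : ∀ x ∈ W j, ∀ i s, ∀ v ∈ D i x, ‖c.A s x v‖ ≤ Real.exp (q j x + g.form (l i) s +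
      ε / 2 * ‖s‖ + (L * (g.R + 1) + Λ + g.m)) * ‖v‖ := fun x hx i s v hv => by
    obtain ⟨r, n, e, hr, hn, hn'⟩ := g.split s
    have h3 := c.add r (pt g.a n) x v (mem _ _)
    rw [← e] at h3
    rw [h3]
    refine (c.bound _ _ _ (mem _ _)).trans ((mul_le_mul_of_nonneg_left
      (((hq j x hx).2 i).2 n v hv) (Real.exp_pos _).le).trans ?_)
    rw [← mul_assoc, ← Real.exp_add]
    refine mul_le_mul_of_nonneg_right (Real.exp_le_exp.2 ?_) (norm_nonneg v)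
    linarith [hK r hr, h2 s n hn, g.form_near (l i) hn', hΛi i]
  refine ⟨fun x => q j x + (g.m + 2 * (L * (g.R + 1))) + (L * (g.R + 1) + Λ + g.m),
    ((q1 j).add_const _).add_const _, fun x => by linarith [q2 j x], fun s x hx => ?_,
    fun x hx i => ⟨?_, fun s v hv => ⟨?_, ?_⟩⟩⟩
  · linarith [slow s x (mem_iInter.1 hx.2 j), mul_nonneg hΛ0 hR, mul_nonneg hε.le (norm_nonneg s)]
  · exact ((hq j x (mem_iInter.1 hx.2 j)).2 i).1.trans (Real.exp_le_exp.2 (by linarith))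
  · refine (up x (mem_iInter.1 hx.2 j) i s v hv).trans
      (mul_le_mul_of_nonneg_right (Real.exp_le_exp.2 ?_) (norm_nonneg v))
    linarith [mul_nonneg hε.le (norm_nonneg s)]
  · have h3 := up _ (w3 j s x (mem_iInter.1 hx.2 j)) i (-s) _ ((hb.sub i).inv s x v hv)
    rw [c.neg_apply s (mem _ _), map_neg, norm_neg] at h3
    refine h3.trans (mul_le_mul_of_nonneg_right (Real.exp_le_exp.2 ?_) (norm_nonneg _))
    linarith [slow s x (mem_iInter.1 hx.2 j)]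

end Pool.Agent.P.MP_d483fb_an.Os
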