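import Pool.Agent.P.MP_d483fb_an.Os.Meas

open MeasureTheory Filter Topology Set

set_option linter.unusedSectionVars false
set_option linter.unusedVariables false
set_option linter.deprecated false

noncomputable section

namespace Pool.Agent.P.MP_d483fb_an.Os

variable {k X V : Type} [NontriviallyNormedField k] [CompleteSpace k]
  [MeasurableSpace X] [NormedAddCommGroup V] [NormedSpace k V]
  [FiniteDimensional k V] [ProperSpace V]

/-- every norm is uniformly equivalent to the given one after a linear change of coordinates -/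
theorem exists_straight (k V : Type) [NontriviallyNormedField k] [CompleteSpace k]
    [NormedAddCommGroup V] [NormedSpace k V] [FiniteDimensional k V] [ProperSpace V] :
    ∃ C : ℝ, 1 ≤ C ∧ ∀ N : Seminorm k V, Continuous N → (∃ c : ℝ, ∀ v, ‖v‖ ≤ c * N v) →
      ∃ R : V →L[k] V, ∀ v, N v ≤ C * ‖R v‖ ∧ ‖R v‖ ≤ C * N v := by
  classical
  let b := Module.finBasis k V
  obtain ⟨t, ht⟩ := NormedField.exists_one_lt_norm k
  let φ := fun i => LinearMap.toContinuousLinearMap (b.coord i)
  refine ⟨1 + ∑ i, ‖φ i‖ + (∑ i, ‖b i‖) * ‖t‖, by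
    linarith [show 0 ≤ ∑ i, ‖φ i‖ by positivity, show 0 ≤ (∑ i, ‖b i‖) * ‖t‖ by positivity],
    fun N hN ⟨c, hc⟩ => ?_⟩
  have hK : IsCompact {v | N v ≤ 1} :=
    (isCompact_closedBall (0 : V) |c|).of_isClosed_subset (isClosed_le hN continuous_const)
      fun v hv => by
        rw [mem_closedBall_zero_iff]
        exact (hc v).trans ((mul_le_mul_of_nonneg_right (le_abs_self c) (apply_nonneg N v)).trans
          (mul_le_of_le_one_right (abs_nonneg c) hv))
  have hdet : Continuous fun v : Fin (Module.finrank k V) → V => ‖b.det v‖ := by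
    simp only [Module.Basis.det_apply]
    refine (Continuous.matrix_det (continuous_matrix fun i j => ?_)).norm
    exact (φ i).continuous.comp (continuous_apply j)
  obtain ⟨v, hv, hmax⟩ := (isCompact_univ_pi fun _ : Fin (Module.finrank k V) => hK).exists_isMaxOn
    ⟨0, fun i _ => by simp⟩ hdet.continuousOn
  have shell : ∀ w, w ≠ 0 → ∃ d : k, d ≠ 0 ∧ N (d • w) ≤ 1 ∧ ‖d‖⁻¹ ≤ ‖t‖ * N w := fun w hw => by
    obtain ⟨d, d0, d1, -, d2⟩ := N.rescale_to_shell ht one_pos (x := w) fun e => by
      have := hc w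
      rw [e, mul_zero] at this
      exact hw (norm_le_zero_iff.1 this)
    exact ⟨d, d0, d1.le, by simpa using d2⟩
  have hv0 : b.det v ≠ 0 := by
    choose d d0 d1 _ using fun i => shell (b i) (b.ne_zero i)
    have h1 : ‖b.det fun i => d i • b i‖ ≤ ‖b.det v‖ := hmax (a := fun i => d i • b i) fun i _ => d1 i
    rw [AlternatingMap.map_smul_univ, b.det_self, smul_eq_mul, mul_one] at h1
    exact norm_pos_iff.1 ((norm_pos_iff.2 (Finset.prod_ne_zero_iff.2 fun i _ => d0 i)).trans_le h1)
  obtain ⟨hli, hsp⟩ := b.is_basis_iff_det.2 hv0.isUnit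
  let e := Module.Basis.mk hli hsp.ge
  have hco : ∀ i w, ‖e.coord i w‖ ≤ ‖t‖ * N w := fun i w => by
    rcases eq_or_ne w 0 with rfl | hw
    · simp
    obtain ⟨d, d0, d1, d2⟩ := shell w hw
    have h1 : ‖b.det (Function.update v i (d • w))‖ ≤ ‖b.det v‖ :=
      hmax (a := Function.update v i (d • w)) fun j _ => by
        rcases eq_or_ne j i with rfl | hj
        · rwa [Function.update_self]
        · rw [Function.update_of_ne hj]
          exact hv j trivial
    have h2 : b.det v * e.coord i (d • w) = b.det (Function.update v i (d • w)) :=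
      DFunLike.congr_fun (b.det_smul_mk_coord_eq_det_update hli hsp.ge i) (d • w)
    rw [← h2, norm_mul, mul_le_iff_le_one_right (norm_pos_iff.2 hv0), map_smul, smul_eq_mul,
      norm_mul, mul_comm, ← le_mul_inv_iff₀ (norm_pos_iff.2 d0), one_mul] at h1
    exact h1.trans d2
  let R := LinearMap.toContinuousLinearMap (e.equiv b (Equiv.refl _)).toLinearMap
  have hR : ∀ w, R w = ∑ i, e.coord i w • b i := fun w => by
    conv_lhs => rw [← e.sum_repr w]
    rw [map_sum]
    refine Finset.sum_congr rfl fun i _ => ?_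
    rw [map_smul]
    exact congrArg _ (e.equiv_apply i b (Equiv.refl _))
  refine ⟨R, fun w => ⟨?_, ?_⟩⟩
  · have h1 : N w ≤ ∑ i, ‖φ i‖ * ‖R w‖ := by
      conv_lhs => rw [← e.sum_repr w]
      refine (Finset.le_sum_of_subadditive N (map_zero N).le (map_add_le_add N) _ _).trans
        (Finset.sum_le_sum fun i _ => ?_)
      have h2 : φ i (R w) = e.repr w i := by
        rw [hR]
        change b.repr _ i = _
        rw [b.repr_sum_self]
        rfl
      rw [map_smul_eq_mul, ← h2]
      refine (mul_le_of_le_one_right (norm_nonneg _) ?_).trans ((φ i).le_opNorm _)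
      rw [Module.Basis.mk_apply]
      exact hv i trivial
    rw [← Finset.sum_mul] at h1
    refine h1.trans (mul_le_mul_of_nonneg_right ?_ (norm_nonneg _))
    linarith [show 0 ≤ (∑ i, ‖b i‖) * ‖t‖ by positivity]
  · have h1 : ‖R w‖ ≤ ∑ i, ‖b i‖ * (‖t‖ * N w) := by
      rw [hR]
      refine (norm_sum_le _ _).trans (Finset.sum_le_sum fun i _ => ?_)
      rw [norm_smul, mul_comm]
      exact mul_le_mul_of_nonneg_left (hco i w) (norm_nonneg _)
    rw [← Finset.sum_mul, ← mul_assoc] at h1
    refine h1.trans (mul_le_mul_of_nonneg_right ?_ (apply_nonneg N w))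
    linarith [show 0 ≤ ∑ i, ‖φ i‖ by positivity]

/-- measurable change of coordinates straightening a measurable family of norms -/
theorem straighten {N : X → Seminorm k V} (hm : ∀ v, Measurable fun x => N x v)
    (hc : ∀ x, Continuous (N x)) (hl : ∀ x, ∃ c : ℝ, ∀ v, ‖v‖ ≤ c * N x v) :
    ∃ (C : ℝ) (R Q : X → V →L[k] V), 0 ≤ C ∧ StronglyMeasurable R ∧ StronglyMeasurable Q ∧
      (∀ x v, Q x (R x v) = v) ∧ (∀ x v, R x (Q x v) = v) ∧
      ∀ x v, N x v ≤ Real.exp C * ‖R x v‖ ∧ ‖R x v‖ ≤ Real.exp C * N x v := by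
  classical
  obtain ⟨C, hC, h⟩ := exists_straight k V
  let u := TopologicalSpace.denseSeq (V →L[k] V)
  have hu : DenseRange u := TopologicalSpace.denseRange_denseSeq _
  have hex : ∀ x, ∃ j, (∀ v, N x v ≤ 2 * C * ‖u j v‖) ∧ ∀ v, ‖u j v‖ ≤ 2 * C * N x v := by
    intro x
    obtain ⟨R, hR⟩ := h (N x) (hc x) (hl x)
    obtain ⟨c, h1⟩ := hl x
    have h0 : 0 < 2 * C * (|c| + 1) := by positivity
    obtain ⟨j, hj⟩ := hu.exists_dist_lt R (ε := (2 * C * (|c| + 1))⁻¹) (inv_pos.2 h0)
    have h2 : ∀ v, 2 * C * ‖R v - u j v‖ ≤ N x v := fun v => by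
      have h3 := (R - u j).le_opNorm v
      rw [ContinuousLinearMap.sub_apply, ← dist_eq_norm R] at h3
      have h4 : ‖v‖ ≤ (|c| + 1) * N x v := (h1 v).trans (mul_le_mul_of_nonneg_right
        (by linarith [le_abs_self c]) (apply_nonneg _ _))
      have h5 := mul_le_mul hj.le h4 (norm_nonneg v) (inv_pos.2 h0).le
      refine (mul_le_mul_of_nonneg_left (h3.trans h5) (by positivity)).trans_eq ?_
      field_simp
    refine ⟨j, fun v => ?_, fun v => ?_⟩
    · have := mul_le_mul_of_nonneg_left (norm_sub_norm_le (R v) (u j v)) (show 0 ≤ 2 * C by positivity)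
      linarith [h2 v, (hR v).1]
    · have h3 := norm_sub_norm_le (u j v) (R v)
      rw [norm_sub_rev] at h3
      have h4 := mul_le_mul_of_nonneg_right hC (norm_nonneg (R v - u j v))
      have h5 := mul_le_mul_of_nonneg_right hC (apply_nonneg (N x) v)
      linarith [h2 v, (hR v).2, norm_nonneg (R v - u j v)]
  have hj : Measurable fun x => Nat.find (hex x) := measurable_find hex fun j =>
    (meas_forall (g := fun _ v => 2 * C * ‖u j v‖) hm (fun _ => measurable_const) hc
      fun _ => by fun_prop).inter (meas_forall (f := fun _ v => ‖u j v‖)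
        (g := fun x v => 2 * C * N x v) (fun _ => measurable_const) (fun v => (hm v).const_mul _)
        (fun _ => by fun_prop) fun x => continuous_const.mul (hc x))
  have hun : ∀ x, IsUnit (u (Nat.find (hex x))) := fun x => by
    have h1 : Function.Injective (u (Nat.find (hex x))) := by
      refine (injective_iff_map_eq_zero _).2 fun v hv => ?_
      obtain ⟨c, h1⟩ := hl x
      have h2 := (Nat.find_spec (hex x)).1 v
      rw [hv, norm_zero, mul_zero] at h2
      have h3 := h1 v
      rw [le_antisymm h2 (apply_nonneg _ _), mul_zero] at h3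
      exact norm_le_zero_iff.1 h3
    exact ContinuousLinearMap.isUnit_iff_bijective.2
      ⟨h1, LinearMap.surjective_of_injective (f := (u (Nat.find (hex x))).toLinearMap) h1⟩
  have hE : Real.exp (Real.log (2 * C)) = 2 * C := Real.exp_log (by positivity)
  refine ⟨Real.log (2 * C), fun x => u (Nat.find (hex x)),
    fun x => Ring.inverse (u (Nat.find (hex x))), Real.log_nonneg (by linarith),
    (StronglyMeasurable.of_discrete (f := u)).comp_measurable hj,
    (StronglyMeasurable.of_discrete (f := fun j => Ring.inverse (u j))).comp_measurable hj,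
    fun x v => DFunLike.congr_fun (Ring.inverse_mul_cancel _ (hun x)) v,
    fun x v => DFunLike.congr_fun (Ring.mul_inverse_cancel _ (hun x)) v, fun x v => ?_⟩
  rw [hE]
  exact ⟨(Nat.find_spec (hex x)).1 v, (Nat.find_spec (hex x)).2 v⟩

end Pool.Agent.P.MP_d483fb_an.Os
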