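import Pool.Agent.P.MP_d483fb_an.Os.OutT
import Pool.Agent.P.MP_d483fb_an.Os.Main
import Pool.Agent.P.MP_d483fb_an.Os.Str

open MeasureTheory Filter Topology Set

set_option linter.unusedSectionVars false
set_option linter.unusedVariables false
set_option linter.deprecated false

noncomputable section

namespace Pool.Agent.P.MP_d483fb_an.Os

variable {k Γ X V : Type} [NontriviallyNormedField k] [CompleteSpace k] [SeminormedAddCommGroup Γ]
  [MeasurableSpace X] {μ : Measure X} [NormedAddCommGroup V] [NormedSpace k V]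
  [FiniteDimensional k V] [ProperSpace V]

/-- a function with bounded increments has slowly varying majorants -/
theorem Gen.slow [IsFiniteMeasure μ] (g : Gen Γ) (S : Sys Γ X μ) {h : X → ℝ} {L : ℝ} (hL : 0 ≤ L)
    (hm : Measurable h) (hl : ∀ s x, h (S.act s x) ≤ h x + L * (‖s‖ + 1)) :
    ∃ (Z : Set X) (B : ℝ), MeasurableSet Z ∧ (∀ᵐ x ∂μ, x ∈ Z) ∧ (∀ s, ∀ x ∈ Z, S.act s x ∈ Z) ∧
      0 ≤ B ∧ ∀ ε : ℝ, 0 < ε → ∃ q : X → ℝ, Measurable q ∧ (∀ x, 0 ≤ q x) ∧
        ∀ x ∈ Z, h x ≤ q x ∧ ∀ s, q (S.act s x) ≤ q x + ε * ‖s‖ + B := by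
  have hpos : ∀ j : ℕ, (0 : ℝ) < 1 / (j + 1) := fun j => by positivity
  have hB : ∀ s : Γ, 0 ≤ L * (‖s‖ + 1) := fun s => by positivity
  have hR := g.R_nonneg
  choose W q w1 w2 w3 q1 q2 q3 hq using fun j : ℕ => S.slow g.a hB (f := fun _ : Unit => h)
    (fun _ => hm) (fun _ => hl) (hpos j).le (by
      obtain ⟨p, -, -, hp⟩ := S.temper hB g.a (hpos j) Finset.univ hm hl
      exact hp.mono fun x hx => ⟨p x, fun _ n => hx n⟩)
  refine ⟨⋂ j, W j, g.m + L * (g.R + 1), MeasurableSet.iInter w1,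
    (ae_all_iff.2 w2).mono fun x hx => mem_iInter.2 hx,
    fun s x hx => mem_iInter.2 fun j => w3 j s x (mem_iInter.1 hx j), by positivity,
    fun ε hε => ?_⟩
  obtain ⟨j, hj⟩ := exists_nat_one_div_lt (K := ℝ) (ε := ε / (g.m * g.R + 1)) (by positivity)
  refine ⟨q j, q1 j, q2 j, fun x hx => ⟨(hq j x (mem_iInter.1 hx j)).1 (), fun s => ?_⟩⟩
  obtain ⟨r, n, e, hr, hn, -⟩ := g.split s
  have h1 : (1 : ℝ) / (j + 1) ≤ 1 := by
    rw [div_le_one (by positivity)]
    linarith [j.cast_nonneg (α := ℝ)]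
  rw [lt_div_iff₀ (by positivity)] at hj
  have h3 : 1 / (j + 1 : ℝ) * (g.m * g.R) ≤ ε := by linarith [hpos j]
  have h4 := mul_le_mul_of_nonneg_right h3 (norm_nonneg s)
  have h5 := mul_le_mul_of_nonneg_right h1 (g.m.cast_nonneg (α := ℝ))
  have h6 := q3 j r (S.act (pt g.a n) x)
  rw [← S.add, ← e] at h6
  linarith [mul_le_mul_of_nonneg_left hn (hpos j).le, (hq j x (mem_iInter.1 hx j)).2 n,
    mul_le_mul_of_nonneg_left (add_le_add hr (le_refl (1 : ℝ))) hL]

variable {S : Sys Γ X μ} {A : Γ → X → V →L[k] V} {h : X → ℝ} {L : ℝ}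

theorem TCoc.lower (c : TCoc S A h L) (s : Γ) (x : X) (v : V) :
    ‖v‖ ≤ Real.exp (2 * (L * (‖s‖ + 1)) + h x) * ‖A s x v‖ := by
  have h1 := c.bound (-s) (S.act s x) (A s x v)
  rw [← c.add, neg_add_cancel, c.zero, norm_neg] at h1
  refine h1.trans (mul_le_mul_of_nonneg_right (Real.exp_le_exp.2 ?_) (norm_nonneg _))
  linarith [c.h_lip s x]

/-- adapted norms -/
theorem TCoc.adapted (c : TCoc S A h L) [MeasurableSpace Γ] [MeasurableAdd Γ] (ν : Measure Γ)
    [SFinite ν] [NeZero ν] [ν.IsAddRightInvariant] (hn : Measurable fun s : Γ => ‖s‖) {r : ℝ}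
    (hr : 0 ≤ r) (hν : Integrable (fun s => Real.exp (-(r * ‖s‖))) ν)
    (hA : StronglyMeasurable fun p : Γ × X => A p.1 p.2) :
    ∃ (N : X → Seminorm k V) (C : ℝ), 0 ≤ C ∧ (∀ v, Measurable fun x => N x v) ∧
      (∀ x v, N x v ≤ Real.exp (C + h x) * ‖v‖) ∧ (∀ x v, ‖v‖ ≤ Real.exp (C + h x) * N x v) ∧
      ∀ t x v, N (S.act t x) (A t x v) ≤ Real.exp ((L + r) * ‖t‖) * N x v := by
  have hL := c.L_nonneg
  let F : X → V → Γ → ℝ := fun x v s => Real.exp (-((L + r) * ‖s‖)) * ‖A s x v‖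
  have Fm : ∀ v, StronglyMeasurable fun p : Γ × X => F p.2 v p.1 := fun v =>
    (((hn.comp measurable_fst).const_mul _).neg.exp.stronglyMeasurable).mul (sm_apply hA v).norm
  have F0 : ∀ x v s, 0 ≤ F x v s := fun x v s => by positivity
  have Fle : ∀ x v s, F x v s ≤ Real.exp (-(r * ‖s‖)) * (Real.exp (L + h x) * ‖v‖) := by
    intro x v s
    refine (mul_le_mul_of_nonneg_left (c.bound s x v) (Real.exp_pos _).le).trans_eq ?_
    rw [← mul_assoc, ← mul_assoc, ← Real.exp_add, ← Real.exp_add]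
    ring_nf
  have Fi : ∀ x v, Integrable (F x v) ν := fun x v =>
    (hν.mul_const _).mono' ((Fm v).comp_measurable measurable_prodMk_right).aestronglyMeasurable
      (ae_of_all _ fun s => by rw [Real.norm_of_nonneg (F0 x v s)]; exact Fle x v s)
  have hν' : Integrable (fun s : Γ => Real.exp (-((3 * L + r) * ‖s‖))) ν :=
    hν.mono' (hn.const_mul _).neg.exp.aestronglyMeasurable (ae_of_all _ fun s => by
      rw [Real.norm_of_nonneg (Real.exp_pos _).le, Real.exp_le_exp]
      linarith [mul_nonneg hL (norm_nonneg s)])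
  set I := ∫ s, Real.exp (-(r * ‖s‖)) ∂ν
  set J := ∫ s, Real.exp (-((3 * L + r) * ‖s‖)) ∂ν
  have hI : 0 < I := integral_exp_pos hν
  have hJ : 0 < J := integral_exp_pos hν'
  refine ⟨fun x => Seminorm.of (fun v => ∫ s, F x v s ∂ν) (fun v w => ?_) fun a v => ?_,
    2 * L + |Real.log I| + |Real.log J|, by positivity,
    fun v => (Fm v).integral_prod_left'.measurable, fun x v => ?_, fun x v => ?_, fun t x v => ?_⟩
  · rw [← integral_add (Fi x v) (Fi x w)]
    refine integral_mono (Fi x _) ((Fi x v).add (Fi x w)) fun s => ?_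
    simp only [F, map_add, ← mul_add]
    exact mul_le_mul_of_nonneg_left (norm_add_le _ _) (Real.exp_pos _).le
  · rw [← integral_const_mul]
    simp only [F, map_smul, norm_smul, mul_left_comm]
  · refine (integral_mono (Fi x v) (hν.mul_const _) (Fle x v)).trans ?_
    rw [integral_mul_const, ← mul_assoc]
    refine mul_le_mul_of_nonneg_right ?_ (norm_nonneg v)
    change I * _ ≤ _
    rw [← Real.exp_log hI, ← Real.exp_add, Real.exp_le_exp, Real.log_exp]
    linarith [le_abs_self (Real.log I), abs_nonneg (Real.log J)]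
  · have h1 : J * ‖v‖ ≤ Real.exp (2 * L + h x) * ∫ s, F x v s ∂ν := by
      rw [← integral_mul_const, ← integral_const_mul]
      refine integral_mono (hν'.mul_const _) ((Fi x v).const_mul _) fun s => ?_
      refine (mul_le_mul_of_nonneg_left (c.lower s x v) (Real.exp_pos _).le).trans_eq ?_
      simp only [F]
      rw [← mul_assoc, ← mul_assoc (Real.exp _), ← Real.exp_add, ← Real.exp_add]
      ring_nf
    rw [← le_inv_mul_iff₀ hJ, ← mul_assoc] at h1
    refine h1.trans (mul_le_mul_of_nonneg_right ?_ (integral_nonneg (F0 x v)))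
    rw [← Real.exp_log hJ, ← Real.exp_neg, ← Real.exp_add, Real.exp_le_exp, Real.log_exp]
    linarith [neg_abs_le (Real.log J), abs_nonneg (Real.log I)]
  · change ∫ s, F _ _ s ∂ν ≤ _ * ∫ s, F x v s ∂ν
    rw [← integral_add_right_eq_self (F x v) t, ← integral_const_mul]
    refine integral_mono (Fi _ _) (((Fi x v).comp_add_right t).const_mul _) fun s => ?_
    simp only [F, c.add]
    rw [← mul_assoc, ← Real.exp_add]
    refine mul_le_mul_of_nonneg_right (Real.exp_le_exp.2 ?_) (norm_nonneg _)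
    linarith [mul_le_mul_of_nonneg_left (norm_add_le s t) (add_nonneg hL hr)]

/-- the tempered case follows from the bounded case by a change of coordinates -/
theorem TCoc.transfer [IsProbabilityMeasure μ] (c : TCoc S A h L) (g : Gen Γ)
    (hA : ∀ s, StronglyMeasurable (A s)) {N : X → Seminorm k V} {C L' : ℝ} (hC : 0 ≤ C)
    (hL' : 0 ≤ L') (hm : ∀ v, Measurable fun x => N x v)
    (h1 : ∀ x v, N x v ≤ Real.exp (C + h x) * ‖v‖) (h2 : ∀ x v, ‖v‖ ≤ Real.exp (C + h x) * N x v)
    (h3 : ∀ t x v, N (S.act t x) (A t x v) ≤ Real.exp (L' * ‖t‖) * N x v) :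
    ∃ (ι : Type) (_ : Fintype ι), Nonempty (OseA S A ι) := by
  obtain ⟨C', R, Q, hC', mR, mQ, QR, RQ, hb⟩ := straighten hm (fun x =>
    (LipschitzWith.of_dist_le' (K := Real.exp (C + h x)) fun v w => by
      rw [dist_eq_norm v w]
      exact (abs_sub_map_le_sub (N x) v w).trans (h1 x _)).continuous) fun x => ⟨_, h2 x⟩
  have bR : ∀ x v, ‖R x v‖ ≤ Real.exp (C' + C + h x) * ‖v‖ := fun x v =>
    (hb x v).2.trans ((mul_le_mul_of_nonneg_left (h1 x v) (Real.exp_pos _).le).trans_eq
      (by rw [← mul_assoc, ← Real.exp_add, add_assoc]))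
  have bQ : ∀ x v, ‖v‖ ≤ Real.exp (C' + C + h x) * ‖R x v‖ := fun x v =>
    (h2 x v).trans ((mul_le_mul_of_nonneg_left (hb x v).1 (Real.exp_pos _).le).trans_eq
      (by rw [← mul_assoc, ← Real.exp_add]; ring_nf))
  let c' : Coc S k V :=
    { A := fun s x => R (S.act s x) * A s x * Q x
      E := fun _ => ⊤
      K := fun s => L' * ‖s‖ + 2 * C'
      measA := fun s => ((mR.comp_measurable (S.meas s)).mul (hA s)).mul mQ
      measE := msub_const _
      map := fun _ _ _ _ => Submodule.mem_top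
      zero := fun x v _ => by simp only [ContinuousLinearMap.mul_apply, S.zero, c.zero, RQ]
      add := fun s t x v _ => by simp only [ContinuousLinearMap.mul_apply, S.add, c.add, QR]
      bound := fun s x v _ => by
        have h4 := (hb x (Q x v)).1
        rw [RQ] at h4
        refine (hb _ _).2.trans ((mul_le_mul_of_nonneg_left ((h3 s x _).trans
          (mul_le_mul_of_nonneg_left h4 (Real.exp_pos _).le)) (Real.exp_pos _).le).trans_eq ?_)
        rw [← mul_assoc, ← mul_assoc, ← Real.exp_add, ← Real.exp_add]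
        ring_nf
      K_nonneg := fun s => by positivity }
  have hA' : ∀ s x v, c'.A s x (R x v) = R (S.act s x) (A s x v) := fun s x v => by
    simp only [c', ContinuousLinearMap.mul_apply, QR]
  obtain ⟨ι, _, ⟨o⟩⟩ := oseledets g c' (fun _ => rfl) (L := L' + 2 * C') fun s => by
    change L' * ‖s‖ + 2 * C' ≤ _
    linarith [mul_nonneg hC' (norm_nonneg s)]
  obtain ⟨Z, B, z1, z2, z3, hB, hZ⟩ := g.slow S c.L_nonneg c.measH c.h_lip
  have hB' := o.B_nonneg
  refine ⟨ι, inferInstance, ⟨⟨fun i x => (o.D i x).comap (R x).toLinearMap,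
    fun i x => Q x * o.P i x * R x, o.lam, o.X0 ∩ Z, o.B + 2 * B, o.d, o.lam_inj,
    fun i s => (o.lam_le i s).trans (mul_le_mul_of_nonneg_right (by linarith) (norm_nonneg s)),
    by positivity, fun i => ?_, fun i s x v hv => ?_, fun i => (mQ.mul (o.measP i)).mul mR,
    o.meas0.inter z1, o.ae0.and z2, fun s x hx => ⟨o.inv0 s x hx.1, z3 s x hx.2⟩,
    fun x hx => ⟨fun _ => le_top, fun w _ => ?_, fun v hv e i => ?_⟩, o.d_pos, fun x hx i => ?_,
    fun x hx i v => ?_, fun x hx v => ?_, fun x hx i v hv => ?_, fun x hx i j hij v hv => ?_,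
    fun x hx i s v => ?_, fun ε hε => ?_⟩⟩⟩
  · refine msub_of_bdd (φ := fun n x v => (n : ℝ) * qn (o.D i x) (R x v))
      (fun n v => ((o.sub i).meas.qn_comp (sm_apply mR v)).const_mul _)
      (fun n x => continuous_const.mul ((qn_cont _).comp (R x).continuous))
      fun x v => ⟨fun hv => ⟨0, fun n => ?_⟩, fun ⟨M, hM⟩ => mem_of_mul_le (D := o.D i x) hM⟩
    rw [qn_eq_zero.2 (show R x v ∈ o.D i x from hv), mul_zero]
  · change R _ _ ∈ o.D i _
    rw [← hA']
    exact (o.sub i).inv s x _ hv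
  · obtain ⟨v, hv, e⟩ := (o.dec x hx.1).span (R x w) Submodule.mem_top
    refine ⟨fun i => Q x (v i), fun i => ?_, by rw [← map_sum, e, QR]⟩
    change R x _ ∈ o.D i x
    rw [RQ]
    exact hv i
  · rw [← QR x (v i), (o.dec x hx.1).ind (fun i => R x (v i)) hv
      (by rw [← map_sum, e, map_zero]) i, map_zero]
  · let e : V ≃ₗ[k] V := LinearEquiv.ofLinear (R x).toLinearMap (Q x).toLinearMap
      (LinearMap.ext (RQ x)) (LinearMap.ext (QR x))
    rw [← o.rank x hx.1 i, ← e.symm.finrank_map_eq (o.D i x), ← Submodule.comap_equiv_eq_map_symm]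
    rfl
  · change R x (Q x _) ∈ o.D i x
    rw [RQ]
    exact o.P_mem x hx.1 i _
  · simp only [ContinuousLinearMap.mul_apply]
    rw [← map_sum, o.P_sum x hx.1, QR]
  · simp only [ContinuousLinearMap.mul_apply]
    rw [o.P_self x hx.1 i (R x v) hv, QR]
  · simp only [ContinuousLinearMap.mul_apply]
    rw [o.P_other x hx.1 i j hij (R x v) hv, map_zero]
  · simp only [ContinuousLinearMap.mul_apply]
    rw [← hA', o.P_inv x hx.1, ← RQ x (o.P i x _), hA', QR, QR]
  obtain ⟨q, q1, q2, q3, q4⟩ := o.est (ε / 3) (by positivity)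
  obtain ⟨H, H1, H2, H3⟩ := hZ (ε / 3) (by positivity)
  refine ⟨fun x => q x + 2 * H x + 2 * (C' + C) + B, ((q1.add (H1.const_mul _)).add_const _).add_const _,
    fun x => by linarith [q2 x, H2 x], fun s x hx => by linarith [q3 s x hx.1, (H3 x hx.2).2 s],
    fun x hx i => ⟨ContinuousLinearMap.opNorm_le_bound _ (Real.exp_pos _).le fun v => ?_,
      fun s v hv => ?_⟩⟩
  · refine (bQ x _).trans ?_
    simp only [ContinuousLinearMap.mul_apply]
    rw [RQ]
    refine (mul_le_mul_of_nonneg_left (((o.P i x).le_opNorm _).trans (mul_le_mul (q4 x hx.1 i).1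
      (bR x v) (norm_nonneg _) (Real.exp_pos _).le)) (Real.exp_pos _).le).trans ?_
    rw [← mul_assoc, ← mul_assoc, ← Real.exp_add, ← Real.exp_add]
    refine mul_le_mul_of_nonneg_right (Real.exp_le_exp.2 ?_) (norm_nonneg _)
    linarith [(H3 x hx.2).1]
  obtain ⟨h4, h5⟩ := (q4 x hx.1 i).2 s (R x v) hv
  have h6 := (H3 _ (z3 s x hx.2)).1.trans ((H3 x hx.2).2 s)
  have h7 := mul_nonneg hε.le (norm_nonneg s)
  rw [hA'] at h4 h5
  constructor
  · refine (bQ (S.act s x) _).trans ((mul_le_mul_of_nonneg_left (h4.trans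
      (mul_le_mul_of_nonneg_left (bR x v) (Real.exp_pos _).le)) (Real.exp_pos _).le).trans ?_)
    rw [← mul_assoc, ← mul_assoc, ← Real.exp_add, ← Real.exp_add]
    refine mul_le_mul_of_nonneg_right (Real.exp_le_exp.2 ?_) (norm_nonneg _)
    linarith [(H3 x hx.2).1]
  · refine (bQ x _).trans ((mul_le_mul_of_nonneg_left (h5.trans
      (mul_le_mul_of_nonneg_left (bR _ _) (Real.exp_pos _).le)) (Real.exp_pos _).le).trans ?_)
    rw [← mul_assoc, ← mul_assoc, ← Real.exp_add, ← Real.exp_add]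
    refine mul_le_mul_of_nonneg_right (Real.exp_le_exp.2 ?_) (norm_nonneg _)
    linarith [(H3 x hx.2).1]

/-- Multiplicative ergodic theorem over a finite dimensional real vector space, tempered case. -/
theorem oseledets_temp [IsProbabilityMeasure μ] {W : Type} [NormedAddCommGroup W] [NormedSpace ℝ W]
    [FiniteDimensional ℝ W] [MeasurableSpace W] [BorelSpace W] {S : Sys W X μ}
    {A : W → X → V →L[k] V} {h : X → ℝ} {L : ℝ} (c : TCoc S A h L)
    (hA : StronglyMeasurable fun p : W × X => A p.1 p.2) :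
    ∃ (ι : Type) (_ : Fintype ι), Nonempty (OseA S A ι) := by
  obtain ⟨g⟩ := exists_gen W
  have hr : (0 : ℝ) ≤ Module.finrank ℝ W + 1 := by positivity
  obtain ⟨N, C, hC, hm, h1, h2, h3⟩ := c.adapted (Measure.addHaar (G := W)) measurable_norm hr
    ((integrable_one_add_norm (lt_add_one _)).mono' (by fun_prop) (ae_of_all _ fun s => by
      rw [Real.norm_of_nonneg (Real.exp_pos _).le, Real.rpow_def_of_pos (by positivity),
        Real.exp_le_exp]
      have := Real.log_le_sub_one_of_pos (show 0 < 1 + ‖s‖ by positivity)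
      nlinarith)) hA
  exact c.transfer g (fun s => hA.comp_measurable measurable_prodMk_left) hC
    (add_nonneg c.L_nonneg hr) hm h1 h2 h3

/-- Multiplicative ergodic theorem over the integers, tempered case. -/
theorem oseledets_temp_int [IsProbabilityMeasure μ] {S : Sys ℤ X μ}
    {A : ℤ → X → V →L[k] V} {h : X → ℝ} {L : ℝ} (c : TCoc S A h L)
    (hA : ∀ s, StronglyMeasurable (A s)) :
    ∃ (ι : Type) (_ : Fintype ι), Nonempty (OseA S A ι) := by
  obtain ⟨N, C, hC, hm, h1, h2, h3⟩ := c.adapted Measure.count Measurable.of_discrete zero_le_one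
    (integrable_count_iff.2 (Summable.of_nat_of_neg
      (by simpa [Int.norm_eq_abs] using Real.summable_exp_neg_nat)
      (by simpa [Int.norm_eq_abs] using Real.summable_exp_neg_nat)))
    (stronglyMeasurable_uncurry_of_continuous_of_stronglyMeasurable
      (fun _ => continuous_of_discreteTopology) hA)
  exact c.transfer genInt hA hC (add_nonneg c.L_nonneg zero_le_one) hm h1 h2 h3

end Pool.Agent.P.MP_d483fb_an.Os
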