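import Pool.Agent.P.MP_d483fb_an.Os.Defs

open MeasureTheory Filter Topology Set

set_option linter.unusedSectionVars false
set_option linter.unusedVariables false
set_option linter.deprecated false

noncomputable section

namespace Pool.Agent.P.MP_d483fb_an.Os

variable {k Γ X V : Type} [NontriviallyNormedField k] [CompleteSpace k] [AddCommGroup Γ]
  [MeasurableSpace X] {μ : Measure X} [NormedAddCommGroup V] [NormedSpace k V]
  [FiniteDimensional k V] [ProperSpace V]

theorem qn_nonneg (N : Submodule k V) (v : V) : 0 ≤ qn N v := norm_nonneg _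

theorem qn_eq (N : Submodule k V) (v : V) : qn N v = Metric.infDist v N :=
  QuotientAddGroup.norm_mk (S := N.toAddSubgroup) v

theorem qn_add_le (N : Submodule k V) (v w : V) : qn N (v + w) ≤ qn N v + qn N w := by
  unfold qn
  rw [map_add]
  exact norm_add_le _ _

theorem qn_smul (N : Submodule k V) (t : k) (v : V) : qn N (t • v) = ‖t‖ * qn N v := by
  unfold qn
  rw [map_smul, norm_smul]

theorem qn_le {N : Submodule k V} {u : V} (hu : u ∈ N) (v : V) : qn N v ≤ ‖v - u‖ := by
  rw [qn_eq, ← dist_eq_norm]
  exact Metric.infDist_le_dist_of_mem hu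

theorem qn_le_norm (N : Submodule k V) (v : V) : qn N v ≤ ‖v‖ := by
  simpa using qn_le N.zero_mem v

theorem qn_exists (N : Submodule k V) (v : V) : ∃ u ∈ N, ‖v - u‖ = qn N v := by
  obtain ⟨u, hu, e⟩ := N.closed_of_finiteDimensional.exists_infDist_eq_dist ⟨0, N.zero_mem⟩ v
  exact ⟨u, hu, by rw [qn_eq, e, dist_eq_norm]⟩

theorem qn_eq_zero {N : Submodule k V} {v : V} : qn N v = 0 ↔ v ∈ N := by
  constructor
  · intro h
    obtain ⟨u, hu, e⟩ := qn_exists N v
    rw [h, norm_eq_zero, sub_eq_zero] at e
    exact e ▸ hu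
  · intro h
    exact le_antisymm (by simpa using qn_le h v) (qn_nonneg _ _)

theorem qn_pos {N : Submodule k V} {v : V} (h : v ∉ N) : 0 < qn N v :=
  lt_of_le_of_ne (qn_nonneg _ _) fun e => h (qn_eq_zero.1 e.symm)

theorem qn_sub_mem {N : Submodule k V} {u : V} (hu : u ∈ N) (v : V) : qn N (v - u) = qn N v := by
  unfold qn
  rw [map_sub, Submodule.mkQ_apply N u, (Submodule.Quotient.mk_eq_zero N).2 hu, sub_zero]

theorem qn_bot (v : V) : qn (⊥ : Submodule k V) v = ‖v‖ := by
  obtain ⟨u, hu, e⟩ := qn_exists (⊥ : Submodule k V) v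
  rw [← e, (Submodule.mem_bot k).1 hu, sub_zero]

theorem qn_O (x : X) (v : V) : qn (O k V X x) v = ‖v‖ := qn_bot v

theorem qn_cont (N : Submodule k V) : Continuous (qn N) := by
  have : qn N = fun v => Metric.infDist v N := funext (qn_eq N)
  rw [this]
  exact Metric.continuous_infDist_pt _

theorem qn_anti {N N' : Submodule k V} (h : N ≤ N') (v : V) : qn N' v ≤ qn N v := by
  obtain ⟨u, hu, e⟩ := qn_exists N v
  exact e ▸ qn_le (h hu) v

theorem sm_apply {f : X → V →L[k] V} (hf : StronglyMeasurable f) (v : V) :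
    StronglyMeasurable fun x => f x v :=
  (ContinuousLinearMap.apply k V v).continuous.comp_stronglyMeasurable hf

theorem sm_of_apply {f : X → V →L[k] V} (h : ∀ v, StronglyMeasurable fun x => f x v) :
    StronglyMeasurable f := by
  let b := Module.finBasis k V
  have e : f = fun x => ∑ i, ContinuousLinearMap.smulRightL k V V
      (LinearMap.toContinuousLinearMap (b.coord i)) (f x (b i)) := by
    funext x
    ext v
    conv_lhs => rw [← b.sum_repr v, map_sum]
    simp only [ContinuousLinearMap.sum_apply, ContinuousLinearMap.smulRightL_apply_apply,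
      ContinuousLinearMap.smulRight_apply, LinearMap.coe_toContinuousLinearMap',
      Module.Basis.coord_apply, map_smul]
  rw [e]
  exact Finset.stronglyMeasurable_fun_sum _ fun i _ =>
    (ContinuousLinearMap.continuous _).comp_stronglyMeasurable (h _)

theorem meas_cara {g : V → X → ℝ} (hc : ∀ x, Continuous fun w => g w x)
    (hm : ∀ w, Measurable (g w)) {f : X → V} (hf : StronglyMeasurable f) :
    Measurable fun x => g (f x) x := by
  borelize V
  have h1 : Measurable (Function.uncurry g) := measurable_uncurry_of_continuous_of_measurable hc hm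
  have h2 : Measurable fun x => (f x, x) := hf.measurable.prodMk measurable_id
  exact h1.comp h2

theorem MSub.qn_comp {D : X → Submodule k V} (h : MSub D) {f : X → V}
    (hf : StronglyMeasurable f) : Measurable fun x => qn (D x) (f x) :=
  meas_cara (g := fun w x => qn (D x) w) (fun x => qn_cont (D x)) h hf

/-- a field of subspaces cut out by the boundedness of a sequence of Caratheodory functions -/
theorem msub_of_bdd {φ : ℕ → X → V → ℝ} (hm : ∀ n v, Measurable fun x => φ n x v)
    (hc : ∀ n x, Continuous (φ n x)) {D : X → Submodule k V}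
    (hD : ∀ x v, v ∈ D x ↔ ∃ M : ℝ, ∀ n, φ n x v ≤ M) : MSub D := by
  refine fun w => measurable_of_Iio fun r => ?_
  let u := TopologicalSpace.denseSeq V
  have hu : DenseRange u := TopologicalSpace.denseRange_denseSeq V
  have e : (fun x => qn (D x) w) ⁻¹' Iio r =
      ⋃ (M : ℕ) (q : ℚ) (_ : (q : ℝ) < r), ⋂ N : ℕ, ⋃ i : ℕ, ⋃ (_ : ‖w - u i‖ < q),
        ⋂ n : ℕ, ⋂ (_ : n ≤ N), {x | φ n x (u i) < M} := by
    ext x
    simp only [mem_preimage, mem_Iio, mem_iUnion, mem_iInter, mem_setOf_eq, exists_prop]
    constructor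
    · intro hx
      obtain ⟨q, hq1, hq2⟩ := exists_rat_btwn hx
      obtain ⟨z, hz, ez⟩ := qn_exists (D x) w
      obtain ⟨M0, hM0⟩ := (hD x _).1 hz
      obtain ⟨M, hM⟩ := exists_nat_gt M0
      refine ⟨M, q, hq2, fun N => ?_⟩
      have ho : IsOpen ({v : V | ‖w - v‖ < q} ∩ ⋂ n ∈ Finset.range (N + 1), {v | φ n x v < M}) :=
        (isOpen_lt (continuous_const.sub continuous_id).norm continuous_const).inter
          (isOpen_biInter_finset fun n _ => isOpen_lt (hc n x) continuous_const)
      obtain ⟨i, hi⟩ := hu.exists_mem_open ho ⟨z, ez.trans_lt hq1,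
        mem_iInter₂.2 fun n _ => (hM0 n).trans_lt hM⟩
      exact ⟨i, hi.1, fun n hn => mem_iInter₂.1 hi.2 n (Finset.mem_range.2 (by omega))⟩
    · rintro ⟨M, q, hq, h⟩
      choose i hi1 hi2 using h
      have hb : ∀ N, u (i N) ∈ Metric.closedBall w q := fun N => by
        rw [mem_closedBall_iff_norm']; exact (hi1 N).le
      obtain ⟨v, hv, j, hj, hl⟩ := (isCompact_closedBall w (q : ℝ)).tendsto_subseq hb
      have hvD : v ∈ D x := (hD x v).2 ⟨M, fun n => by
        refine le_of_tendsto (((hc n x).tendsto v).comp hl) ?_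
        filter_upwards [eventually_ge_atTop n] with N hN
        exact (hi2 (j N) n (hN.trans (hj.id_le N))).le⟩
      rw [mem_closedBall_iff_norm'] at hv
      exact (qn_le hvD w).trans_lt (hv.trans_lt hq)
  rw [e]
  refine MeasurableSet.iUnion fun M => MeasurableSet.iUnion fun q => MeasurableSet.iUnion fun _ =>
    MeasurableSet.iInter fun N => MeasurableSet.iUnion fun i => MeasurableSet.iUnion fun _ =>
    MeasurableSet.iInter fun n => MeasurableSet.iInter fun _ =>
    measurableSet_lt (hm n _) measurable_const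

theorem mem_of_mul_le {D : Submodule k V} {v : V} {M : ℝ}
    (h : ∀ n : ℕ, (n : ℝ) * qn D v ≤ M) : v ∈ D := by
  by_contra hv
  have h0 := qn_pos hv
  obtain ⟨n, hn⟩ := exists_nat_gt (M / qn D v)
  rw [div_lt_iff₀ h0] at hn
  exact absurd (h n) (not_le.2 hn)

theorem MSub.iInf {D : ℕ → X → Submodule k V} (h : ∀ j, MSub (D j)) :
    MSub fun x => ⨅ j, D j x := by
  refine msub_of_bdd
    (φ := fun n x v => ((Nat.unpair n).1 : ℝ) * qn (D (Nat.unpair n).2 x) v)
    (fun n v => measurable_const.mul (h _ v))
    (fun n x => continuous_const.mul (qn_cont _)) fun x v => ?_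
  rw [Submodule.mem_iInf]
  constructor
  · intro hv
    exact ⟨0, fun n => by rw [qn_eq_zero.2 (hv _), mul_zero]⟩
  · rintro ⟨M, hM⟩ j
    refine mem_of_mul_le (M := M) fun n => ?_
    simpa only [Nat.unpair_pair] using hM (Nat.pair n j)

theorem msub_const (W : Submodule k V) : MSub fun _ : X => W := fun _ => measurable_const

theorem MSub.comp {D : X → Submodule k V} (h : MSub D) {T : X → X} (hT : Measurable T) :
    MSub fun x => D (T x) := fun w => (h w).comp hT

/-- a closed condition on vectors is checked on a dense sequence -/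
theorem meas_forall {f g : X → V → ℝ} (hf : ∀ v, Measurable fun x => f x v)
    (hg : ∀ v, Measurable fun x => g x v) (cf : ∀ x, Continuous (f x))
    (cg : ∀ x, Continuous (g x)) : MeasurableSet {x | ∀ v, f x v ≤ g x v} := by
  have hu := TopologicalSpace.denseRange_denseSeq V
  have e : {x | ∀ v, f x v ≤ g x v} =
      ⋂ i, {x | f x (TopologicalSpace.denseSeq V i) ≤ g x (TopologicalSpace.denseSeq V i)} := by
    ext x
    simp only [mem_setOf_eq, mem_iInter]
    exact ⟨fun h i => h _, fun h v => hu.induction_on v (isClosed_le (cf x) (cg x)) h⟩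
  rw [e]
  exact MeasurableSet.iInter fun i => measurableSet_le (hf _) (hg _)

theorem MSub.le_set {D D' : X → Submodule k V} (h : MSub D) (h' : MSub D') :
    MeasurableSet {x | D x ≤ D' x} := by
  have := meas_forall h' h (fun x => qn_cont _) (fun x => qn_cont _)
  convert this using 1
  ext x
  refine ⟨fun hx v => qn_anti hx v, fun hx v hv => qn_eq_zero.1 (le_antisymm ?_ (qn_nonneg _ _))⟩
  exact (hx v).trans_eq (qn_eq_zero.2 hv)

theorem MSub.sup {D D' : X → Submodule k V} (h : MSub D) (h' : MSub D') :
    MSub fun x => D x ⊔ D' x := by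
  refine fun w => measurable_of_Iio fun r => ?_
  let u := TopologicalSpace.denseSeq V
  have hu : DenseRange u := TopologicalSpace.denseRange_denseSeq V
  have e : (fun x => qn (D x ⊔ D' x) w) ⁻¹' Iio r =
      ⋃ i : ℕ, {x | qn (D x) (u i) + qn (D' x) (w - u i) < r} := by
    ext x
    simp only [mem_preimage, mem_Iio, mem_iUnion, mem_setOf_eq]
    constructor
    · intro hx
      obtain ⟨z, hz, ez⟩ := qn_exists (D x ⊔ D' x) w
      obtain ⟨a, ha, b, hb, rfl⟩ := Submodule.mem_sup.1 hz
      have ho : IsOpen {v : V | qn (D x) v + qn (D' x) (w - v) < r} :=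
        isOpen_lt ((qn_cont _).add ((qn_cont _).comp (continuous_const.sub continuous_id)))
          continuous_const
      refine hu.exists_mem_open ho ⟨a, ?_⟩
      have := qn_le hb (w - a)
      rw [sub_sub, ez] at this
      rw [mem_setOf_eq, qn_eq_zero.2 ha, zero_add]
      exact this.trans_lt hx
    · rintro ⟨i, hi⟩
      have h1 := qn_add_le (D x ⊔ D' x) (u i) (w - u i)
      rw [add_sub_cancel] at h1
      linarith [qn_anti (le_sup_left : D x ≤ D x ⊔ D' x) (u i),
        qn_anti (le_sup_right : D' x ≤ D x ⊔ D' x) (w - u i)]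
  rw [e]
  exact MeasurableSet.iUnion fun i => measurableSet_lt ((h _).add (h' _)) measurable_const

end Pool.Agent.P.MP_d483fb_an.Os
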