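import Pool.Agent.P.MP_d483fb_an.Os.Coc

open MeasureTheory Filter Topology Set

set_option linter.unusedSectionVars false
set_option linter.unusedVariables false
set_option linter.deprecated false

noncomputable section

namespace Pool.Agent.P.MP_d483fb_an.Os

variable {k Γ X V : Type} [NontriviallyNormedField k] [CompleteSpace k] [SeminormedAddCommGroup Γ]
  [MeasurableSpace X] {μ : Measure X} [NormedAddCommGroup V] [NormedSpace k V]
  [FiniteDimensional k V] [ProperSpace V]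

/-- coordinates on the acting group: a lattice of bounded covolume (covers `ℤ`, `ℤ^m`, `ℝ^m`) -/
structure Gen (Γ : Type) [SeminormedAddCommGroup Γ] where
  m : ℕ
  a : Fin m → Γ
  l : Γ →+ (Fin m → ℝ)
  R : ℝ
  l_a : ∀ j, l (a j) = Pi.single j 1
  l_le : ∀ s j, |l s j| ≤ R * ‖s‖
  rem_le : ∀ s, ‖s - ∑ j, ⌊l s j⌋ • a j‖ ≤ R

/-- the data given by the multiplicative ergodic theorem -/
structure Ose {S : Sys Γ X μ} (c : Coc S k V) (ι : Type) [Fintype ι] where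
  D : ι → X → Submodule k V
  P : ι → X → V →L[k] V
  lam : ι → Γ →+ ℝ
  X0 : Set X
  B : ℝ
  d : ι → ℕ
  lam_inj : Function.Injective lam
  lam_le : ∀ i s, |lam i s| ≤ B * ‖s‖
  B_nonneg : 0 ≤ B
  sub : ∀ i, c.Sub (D i)
  measP : ∀ i, StronglyMeasurable (P i)
  meas0 : MeasurableSet X0
  ae0 : ∀ᵐ x ∂μ, x ∈ X0
  inv0 : ∀ s, ∀ x ∈ X0, S.act s x ∈ X0
  dec : ∀ x ∈ X0, Dec (fun i => D i x) ⊤
  d_pos : ∀ i, 0 < d i
  rank : ∀ x ∈ X0, ∀ i, Module.finrank k (D i x) = d i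
  P_mem : ∀ x ∈ X0, ∀ i v, P i x v ∈ D i x
  P_sum : ∀ x ∈ X0, ∀ v, ∑ i, P i x v = v
  P_self : ∀ x ∈ X0, ∀ i, ∀ v ∈ D i x, P i x v = v
  P_other : ∀ x ∈ X0, ∀ i j, i ≠ j → ∀ v ∈ D j x, P i x v = 0
  P_inv : ∀ x ∈ X0, ∀ i s v, P i (S.act s x) (c.A s x v) = c.A s x (P i x v)
  est : ∀ ε : ℝ, 0 < ε → ∃ q : X → ℝ, Measurable q ∧ (∀ x, 0 ≤ q x) ∧
    (∀ s, ∀ x ∈ X0, q (S.act s x) ≤ q x + ε * ‖s‖ + B) ∧
    ∀ x ∈ X0, ∀ i, ‖P i x‖ ≤ Real.exp (q x) ∧ ∀ s, ∀ v ∈ D i x,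
      ‖c.A s x v‖ ≤ Real.exp (q x + lam i s + ε * ‖s‖) * ‖v‖ ∧
      ‖v‖ ≤ Real.exp (q x - lam i s + ε * ‖s‖) * ‖c.A s x v‖

/-- coordinates on the integers -/
def genInt : Gen ℤ where
  m := 1
  a _ := 1
  l := (Pi.constAddMonoidHom (Fin 1) ℝ).comp (Int.castAddHom ℝ)
  R := 1
  l_a j := by
    funext i
    rw [Subsingleton.elim i j]
    simp
  l_le s j := by simp [Int.norm_eq_abs]
  rem_le s := by simp

theorem exists_gen (W : Type) [NormedAddCommGroup W] [NormedSpace ℝ W] [FiniteDimensional ℝ W] :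
    Nonempty (Gen W) := by
  let b := Module.finBasis ℝ W
  let l := LinearMap.toContinuousLinearMap b.equivFun.toLinearMap
  refine ⟨⟨_, b, b.equivFun.toLinearMap.toAddMonoidHom, ‖l‖ + ∑ j, ‖b j‖, fun j => ?_,
    fun s j => ?_, fun s => ?_⟩⟩
  · funext i
    simp [Pi.single_apply, eq_comm]
  · refine ((norm_le_pi_norm (l s) j).trans (l.le_opNorm s)).trans
      (mul_le_mul_of_nonneg_right (le_add_of_nonneg_right ?_) (norm_nonneg s))
    exact Finset.sum_nonneg fun j _ => norm_nonneg _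
  · have e : s - ∑ j, ⌊b.equivFun s j⌋ • b j = ∑ j, Int.fract (b.equivFun s j) • b j := by
      conv_lhs => rw [← b.sum_equivFun s]
      rw [b.sum_equivFun, sub_eq_iff_eq_add, ← Finset.sum_add_distrib]
      conv_lhs => rw [← b.sum_equivFun s]
      refine Finset.sum_congr rfl fun j _ => ?_
      rw [← Int.cast_smul_eq_zsmul ℝ, ← add_smul, Int.fract_add_floor]
    refine le_trans (le_of_eq (congrArg norm e)) ((norm_sum_le _ _).trans
      (le_add_of_nonneg_of_le (norm_nonneg _) (Finset.sum_le_sum fun j _ => ?_)))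
    rw [norm_smul, Real.norm_eq_abs, abs_of_nonneg (Int.fract_nonneg _)]
    exact mul_le_of_le_one_left (norm_nonneg _) (Int.fract_lt_one _).le

/-- on a real vector space the exponents are continuous linear forms -/
def Ose.lamL {W : Type} [NormedAddCommGroup W] [NormedSpace ℝ W] {S : Sys W X μ} {c : Coc S k V}
    {ι : Type} [Fintype ι] (o : Ose c ι) (i : ι) : W →L[ℝ] ℝ :=
  (o.lam i).toRealLinearMap (AddMonoidHomClass.continuous_of_bound (o.lam i) o.B (o.lam_le i))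

theorem Ose.lamL_apply {W : Type} [NormedAddCommGroup W] [NormedSpace ℝ W] {S : Sys W X μ}
    {c : Coc S k V} {ι : Type} [Fintype ι] (o : Ose c ι) (i : ι) (s : W) :
    o.lamL i s = o.lam i s := rfl

end Pool.Agent.P.MP_d483fb_an.Os
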