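import Pool.Agent.P.MP_d483fb_an.Os.Out

open MeasureTheory Filter Topology Set

set_option linter.unusedSectionVars false
set_option linter.unusedVariables false
set_option linter.deprecated false

noncomputable section

namespace Pool.Agent.P.MP_d483fb_an.Os

variable {k Γ X V : Type} [NontriviallyNormedField k] [CompleteSpace k] [SeminormedAddCommGroup Γ]
  [MeasurableSpace X] {μ : Measure X} [NormedAddCommGroup V] [NormedSpace k V]
  [FiniteDimensional k V] [ProperSpace V]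

/-- the data given by the multiplicative ergodic theorem for a cocycle `A` on the trivial bundle -/
structure OseA (S : Sys Γ X μ) (A : Γ → X → V →L[k] V) (ι : Type) [Fintype ι] where
  D : ι → X → Submodule k V
  P : ι → X → V →L[k] V
  lam : ι → Γ →+ ℝ
  X0 : Set X
  B : ℝ
  d : ι → ℕ
  lam_inj : Function.Injective lam
  lam_le : ∀ i s, |lam i s| ≤ B * ‖s‖
  B_nonneg : 0 ≤ B
  measD : ∀ i, MSub (D i)
  invD : ∀ i s x, ∀ v ∈ D i x, A s x v ∈ D i (S.act s x)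
  measP : ∀ i, StronglyMeasurable (P i)
  meas0 : MeasurableSet X0
  ae0 : ∀ᵐ x ∂μ, x ∈ X0
  inv0 : ∀ s, ∀ x ∈ X0, S.act s x ∈ X0
  dec : ∀ x ∈ X0, Dec (fun i => D i x) ⊤
  d_pos : ∀ i, 0 < d i
  rank : ∀ x ∈ X0, ∀ i, Module.finrank k (D i x) = d i
  P_mem : ∀ x ∈ X0, ∀ i v, P i x v ∈ D i x
  P_sum : ∀ x ∈ X0, ∀ v, ∑ i, P i x v = v
  P_self : ∀ x ∈ X0, ∀ i, ∀ v ∈ D i x, P i x v = v
  P_other : ∀ x ∈ X0, ∀ i j, i ≠ j → ∀ v ∈ D j x, P i x v = 0
  P_inv : ∀ x ∈ X0, ∀ i s v, P i (S.act s x) (A s x v) = A s x (P i x v)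
  est : ∀ ε : ℝ, 0 < ε → ∃ q : X → ℝ, Measurable q ∧ (∀ x, 0 ≤ q x) ∧
    (∀ s, ∀ x ∈ X0, q (S.act s x) ≤ q x + ε * ‖s‖ + B) ∧
    ∀ x ∈ X0, ∀ i, ‖P i x‖ ≤ Real.exp (q x) ∧ ∀ s, ∀ v ∈ D i x,
      ‖A s x v‖ ≤ Real.exp (q x + lam i s + ε * ‖s‖) * ‖v‖ ∧
      ‖v‖ ≤ Real.exp (q x - lam i s + ε * ‖s‖) * ‖A s x v‖

/-- a cocycle whose norm is controlled by a height function with bounded increments -/
structure TCoc (S : Sys Γ X μ) (A : Γ → X → V →L[k] V) (h : X → ℝ) (L : ℝ) : Prop where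
  zero : ∀ x v, A 0 x v = v
  add : ∀ s t x v, A (s + t) x v = A s (S.act t x) (A t x v)
  bound : ∀ s x v, ‖A s x v‖ ≤ Real.exp (L * (‖s‖ + 1) + h x) * ‖v‖
  L_nonneg : 0 ≤ L
  measH : Measurable h
  h_nonneg : ∀ x, 0 ≤ h x
  h_lip : ∀ s x, h (S.act s x) ≤ h x + L * (‖s‖ + 1)

/-- on a real vector space the exponents are continuous linear forms -/
def OseA.lamL {W : Type} [NormedAddCommGroup W] [NormedSpace ℝ W] {S : Sys W X μ}
    {A : W → X → V →L[k] V} {ι : Type} [Fintype ι] (o : OseA S A ι) (i : ι) : W →L[ℝ] ℝ :=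
  (o.lam i).toRealLinearMap (AddMonoidHomClass.continuous_of_bound (o.lam i) o.B (o.lam_le i))

theorem OseA.lamL_apply {W : Type} [NormedAddCommGroup W] [NormedSpace ℝ W] {S : Sys W X μ}
    {A : W → X → V →L[k] V} {ι : Type} [Fintype ι] (o : OseA S A ι) (i : ι) (s : W) :
    o.lamL i s = o.lam i s := rfl

end Pool.Agent.P.MP_d483fb_an.Os
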