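import Pool.Agent.P.MP_d483fb_an.Os.Split

open MeasureTheory Filter Topology Set

set_option linter.unusedSectionVars false
set_option linter.unusedVariables false
set_option linter.deprecated false

noncomputable section

namespace Pool.Agent.P.MP_d483fb_an.Os

variable {k Γ X V : Type} [NontriviallyNormedField k] [CompleteSpace k] [AddCommGroup Γ]
  [MeasurableSpace X] {μ : Measure X} [NormedAddCommGroup V] [NormedSpace k V]
  [FiniteDimensional k V] [ProperSpace V]

theorem MSub.inf {D D' : X → Submodule k V} (h : MSub D) (h' : MSub D') :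
    MSub fun x => D x ⊓ D' x := by
  refine msub_of_bdd (φ := fun n x v => max (n * qn (D x) v) (n * qn (D' x) v))
    (fun n v => (measurable_const.mul (h v)).max (measurable_const.mul (h' v)))
    (fun n x => (continuous_const.mul (qn_cont _)).max (continuous_const.mul (qn_cont _)))
    fun x v => ⟨fun hv => ⟨0, fun n => ?_⟩, fun ⟨M, hM⟩ => ⟨mem_of_mul_le fun n =>
      (le_max_left _ _).trans (hM n), mem_of_mul_le fun n => (le_max_right _ _).trans (hM n)⟩⟩
  rw [qn_eq_zero.2 hv.1, qn_eq_zero.2 hv.2, mul_zero, max_self]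

theorem MSub.finsup {ι : Type} {D : ι → X → Submodule k V} (h : ∀ i, MSub (D i)) (T : Finset ι) :
    MSub fun x => ⨆ i ∈ T, D i x := by
  classical
  induction T using Finset.induction_on with
  | empty => simpa using msub_const (X := X) (⊥ : Submodule k V)
  | insert j T hj ih =>
    simp only [Finset.iSup_insert]
    exact (h j).sup ih

theorem sum_mem_biSup {ι : Type} {D : ι → Submodule k V} {T : Finset ι} {v : ι → V}
    (hv : ∀ i, v i ∈ D i) : ∑ i ∈ T, v i ∈ ⨆ i ∈ T, D i :=
  (Submodule.mem_iSup_finset_iff_exists_sum D _).2 ⟨fun i => ⟨v i, hv i⟩, rfl⟩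

theorem dec_iff {ι : Type} [Fintype ι] [DecidableEq ι] {D : ι → Submodule k V} :
    Dec D ⊤ ↔ (⊤ ≤ ⨆ i ∈ (Finset.univ : Finset ι), D i) ∧
      ∀ i, D i ⊓ ⨆ j ∈ Finset.univ.erase i, D j ≤ ⊥ := by
  constructor
  · intro h
    refine ⟨fun w hw => ?_, fun i w ⟨h1, h2⟩ => ?_⟩
    · obtain ⟨v, hv, rfl⟩ := h.span w hw
      exact sum_mem_biSup hv
    · obtain ⟨u, hu⟩ := (Submodule.mem_iSup_finset_iff_exists_sum D _).1 h2
      have := h.ind (Function.update (fun j => (u j : V)) i (-w)) (fun j => by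
        rcases eq_or_ne j i with rfl | hj
        · rw [Function.update_self]; exact neg_mem h1
        · rw [Function.update_of_ne hj]; exact (u j).2) (by
        rw [Finset.sum_update_of_mem (Finset.mem_univ i), ← Finset.erase_eq, hu, neg_add_cancel]) i
      rw [Function.update_self, neg_eq_zero] at this
      exact this
  · rintro ⟨h1, h2⟩
    refine ⟨fun _ => le_top, fun w hw => ?_, fun v hv h0 i => h2 i ⟨hv i, ?_⟩⟩
    · obtain ⟨u, hu⟩ := (Submodule.mem_iSup_finset_iff_exists_sum D _).1 (h1 hw)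
      exact ⟨fun i => u i, fun i => (u i).2, hu⟩
    · rw [← Finset.add_sum_erase _ _ (Finset.mem_univ i)] at h0
      rw [eq_neg_of_add_eq_zero_left h0]
      exact neg_mem (sum_mem_biSup hv)

theorem Dec.unique {ι : Type} [Fintype ι] {D : ι → Submodule k V} {W : Submodule k V}
    (h : Dec D W) {v v' : ι → V} (hv : ∀ i, v i ∈ D i) (hv' : ∀ i, v' i ∈ D i)
    (e : ∑ i, v i = ∑ i, v' i) (i : ι) : v i = v' i :=
  sub_eq_zero.1 (h.ind (fun i => v i - v' i) (fun i => sub_mem (hv i) (hv' i))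
    (by rw [Finset.sum_sub_distrib, e, sub_self]) i)

theorem Dec.exists_proj {ι : Type} [Fintype ι] {D : ι → Submodule k V} (h : Dec D ⊤) :
    ∃ P : ι → V →L[k] V, (∀ i v, P i v ∈ D i) ∧ ∀ v, ∑ i, P i v = v := by
  choose f h1 h2 using fun w => h.span w Submodule.mem_top
  refine ⟨fun i => LinearMap.toContinuousLinearMap ⟨⟨fun w => f w i, fun v w => ?_⟩, fun t w => ?_⟩,
    fun i v => h1 v i, h2⟩
  · exact h.unique (h1 _) (fun i => add_mem (h1 v i) (h1 w i))
      (by rw [Finset.sum_add_distrib, h2, h2, h2]) i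
  · exact h.unique (h1 _) (fun i => Submodule.smul_mem _ t (h1 w i))
      (by rw [← Finset.smul_sum, h2, h2]) i

theorem Dec.proj_eq {ι : Type} [Fintype ι] [DecidableEq ι] {D : ι → Submodule k V} (h : Dec D ⊤)
    {P : ι → V →L[k] V} (h1 : ∀ i v, P i v ∈ D i) (h2 : ∀ v, ∑ i, P i v = v) {j : ι} {v : V}
    (hv : v ∈ D j) (i : ι) : P i v = (Pi.single j v : ι → V) i :=
  h.unique (fun i => h1 i v) (fun i => by
    rcases eq_or_ne i j with rfl | hj
    · rwa [Pi.single_eq_same]
    · rw [Pi.single_eq_of_ne hj]; exact zero_mem _) (by rw [h2, Finset.sum_pi_single']; simp) i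

theorem norm_le_qn_add {D D' : Submodule k V} (h : D ⊓ D' ≤ ⊥) :
    ∃ C : ℝ, ∀ z, ‖z‖ ≤ C * max (qn D z) (qn D' z) := by
  have : IsClosed (D : Set V) := D.closed_of_finiteDimensional
  have : IsClosed (D' : Set V) := D'.closed_of_finiteDimensional
  obtain ⟨C, -, hC⟩ := (D.mkQ.prod D'.mkQ).exists_antilipschitzWith (by
    rw [LinearMap.ker_prod, Submodule.ker_mkQ, Submodule.ker_mkQ]
    exact le_bot_iff.1 h)
  exact ⟨C, fun z => ZeroHomClass.bound_of_antilipschitz _ hC z⟩

theorem qn_neg (N : Submodule k V) (v : V) : qn N (-v) = qn N v := by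
  unfold qn
  rw [map_neg, norm_neg]

theorem sm_proj {D D' : X → Submodule k V} (h : MSub D) (h' : MSub D') {Z : Set X}
    (hZ : MeasurableSet Z) {w : V} {f : X → V} (h0 : ∀ x ∉ Z, f x = 0)
    (h1 : ∀ x ∈ Z, D x ⊓ D' x ≤ ⊥ ∧ f x ∈ D x ∧ w - f x ∈ D' x) : StronglyMeasurable f := by
  classical
  let u := TopologicalSpace.denseSeq V
  have hu : DenseRange u := TopologicalSpace.denseRange_denseSeq V
  let p : ℕ → X → ℕ → Prop := fun n x i =>
    x ∉ Z ∨ max (qn (D x) (u i)) (qn (D' x) (w - u i)) < 1 / ((n : ℝ) + 1)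
  have hp : ∀ n x, ∃ i, p n x i := by
    intro n x
    by_cases hx : x ∈ Z
    · have ho : IsOpen {v : V | max (qn (D x) v) (qn (D' x) (w - v)) < 1 / ((n : ℝ) + 1)} :=
        isOpen_lt ((qn_cont _).max ((qn_cont _).comp (continuous_const.sub continuous_id)))
          continuous_const
      obtain ⟨i, hi⟩ := hu.exists_mem_open ho ⟨f x, by
        rw [mem_setOf_eq, qn_eq_zero.2 (h1 x hx).2.1, qn_eq_zero.2 (h1 x hx).2.2, max_self]
        exact Nat.one_div_pos_of_nat⟩
      exact ⟨i, Or.inr hi⟩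
    · exact ⟨0, Or.inl hx⟩
  have hm : ∀ n, Measurable fun x => Nat.find (hp n x) := fun n => measurable_find _ fun i =>
    hZ.compl.union (measurableSet_lt ((h _).max (h' _)) measurable_const)
  refine stronglyMeasurable_of_tendsto atTop
    (f := fun n => Z.indicator fun x => u (Nat.find (hp n x)))
    (fun n => ((StronglyMeasurable.of_discrete (f := u)).comp_measurable (hm n)).indicator hZ)
    (tendsto_pi_nhds.2 fun x => ?_)
  by_cases hx : x ∈ Z
  · obtain ⟨x1, x2, x3⟩ := h1 x hx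
    obtain ⟨C, hC⟩ := norm_le_qn_add x1
    simp only [indicator_of_mem hx]
    rw [tendsto_iff_norm_sub_tendsto_zero]
    have hl := (tendsto_one_div_add_atTop_nhds_zero_nat (𝕜 := ℝ)).const_mul |C|
    rw [mul_zero] at hl
    refine squeeze_zero (fun n => norm_nonneg _) (fun n => (hC _).trans ?_) hl
    have h2 := (Nat.find_spec (hp n x)).resolve_left (not_not.2 hx)
    have e : qn (D' x) (u (Nat.find (hp n x)) - f x) = qn (D' x) (w - u (Nat.find (hp n x))) := by
      rw [← qn_sub_mem x3, ← qn_neg (D' x) (w - _)]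
      congr 1; abel
    rw [qn_sub_mem x2, e]
    exact mul_le_mul (le_abs_self C) h2.le (le_max_of_le_left (qn_nonneg _ _)) (abs_nonneg C)
  · simp only [indicator_of_notMem hx, h0 x hx, tendsto_const_nhds]

theorem Sys.ae_const [IsProbabilityMeasure μ] (S : Sys Γ X μ) {f : X → ℕ} (hf : Measurable f)
    (hi : ∀ s x, f (S.act s x) = f x) : ∃ d, ∀ᵐ x ∂μ, f x = d := by
  by_contra h
  rw [not_exists] at h
  have := ae_all_iff.2 fun d => (S.ae_or (p := fun x => f x = d) (hf (measurableSet_singleton d))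
    fun s x hx => (hi s x).trans hx).resolve_right (h d)
  obtain ⟨x, hx⟩ := this.exists
  exact hx _ rfl

variable {S : Sys Γ X μ}

namespace Coc

variable {c : Coc S k V} {ι : Type} [Fintype ι] {D : ι → X → Submodule k V}

theorem Sub.finrank_act {D : X → Submodule k V} (h : c.Sub D) (s : Γ) (x : X) :
    Module.finrank k (D (S.act s x)) = Module.finrank k (D x) := by
  have key : ∀ s x, Module.finrank k (D x) ≤ Module.finrank k (D (S.act s x)) := fun s x =>
    LinearMap.finrank_le_finrank_of_injective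
      (f := (c.A s x : V →ₗ[k] V).restrict (p := D x) (q := D (S.act s x)) (h.inv s x))
      fun v w e => Subtype.ext (by
        rw [← c.neg_apply s (h.le x v.2), ← c.neg_apply s (h.le x w.2)]
        exact congrArg (fun z : D (S.act s x) => c.A (-s) (S.act s x) z) e)
  refine le_antisymm ?_ (key s x)
  have := key (-s) (S.act s x)
  rwa [S.neg_act] at this

theorem dec_act (hE : ∀ x, c.E x = ⊤) (h : ∀ i, c.Sub (D i)) (s : Γ) {x : X}
    (hx : Dec (fun i => D i x) ⊤) : Dec (fun i => D i (S.act s x)) ⊤ := by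
  refine ⟨fun _ => le_top, fun w _ => ?_, fun v hv h0 i => ?_⟩
  · obtain ⟨v, hv, e⟩ := hx.span (c.A (-s) (S.act s x) w) Submodule.mem_top
    refine ⟨fun i => c.A s x (v i), fun i => (h i).inv s x _ (hv i), ?_⟩
    rw [← map_sum, e, c.apply_neg s (hE _ ▸ Submodule.mem_top)]
  · rw [← c.apply_neg s ((h i).le _ (hv i)), hx.ind (fun i => c.A (-s) (S.act s x) (v i))
      (fun i => (h i).inv_neg s (hv i)) (by rw [← map_sum, h0, map_zero]) i, map_zero]

theorem Blk.proj [IsProbabilityMeasure μ] (hE : ∀ x, c.E x = ⊤) (hb : c.Blk D) :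
    ∃ (Z : Set X) (P : ι → X → V →L[k] V) (d : ι → ℕ), MeasurableSet Z ∧ (∀ᵐ x ∂μ, x ∈ Z) ∧
      (∀ s, ∀ x ∈ Z, S.act s x ∈ Z) ∧ (∀ i, StronglyMeasurable (P i)) ∧ (∀ i, 0 < d i) ∧
      (∀ i, S.Lip c.B fun x => Real.log (max 1 ‖P i x‖)) ∧
      ∀ x ∈ Z, Dec (fun i => D i x) ⊤ ∧ (∀ i, Module.finrank k (D i x) = d i) ∧
        (∀ i v, P i x v ∈ D i x) ∧ (∀ v, ∑ i, P i x v = v) ∧
        ∀ i s v, P i (S.act s x) (c.A s x v) = c.A s x (P i x v) := by
  classical
  let Y : Set X := {x | Dec (fun i => D i x) ⊤}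
  have hm := fun i => (hb.sub i).meas
  have hY : MeasurableSet Y := by
    simp only [Y, dec_iff, setOf_and, setOf_forall]
    exact ((msub_const ⊤).le_set (MSub.finsup hm _)).inter (MeasurableSet.iInter fun i =>
      ((hm i).inf (MSub.finsup hm _)).le_set (msub_const ⊥))
  have hYi : ∀ s, ∀ x ∈ Y, S.act s x ∈ Y := fun s x hx => dec_act hE hb.sub s hx
  have hYn : ∀ s, ∀ x ∉ Y, S.act s x ∉ Y := fun s x hx h => hx (S.neg_act s x ▸ hYi (-s) _ h)
  have ex : ∀ x, ∃ P : ι → V →L[k] V, (x ∉ Y → P = 0) ∧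
      (x ∈ Y → (∀ i v, P i v ∈ D i x) ∧ ∀ v, ∑ i, P i v = v) := fun x => by
    by_cases hx : x ∈ Y
    · obtain ⟨P, hP⟩ := Dec.exists_proj hx
      exact ⟨P, fun h => absurd hx h, fun _ => hP⟩
    · exact ⟨0, fun _ => rfl, fun h => absurd h hx⟩
  choose P P0 P1 using ex
  have Pm : ∀ i, StronglyMeasurable fun x => P x i := fun i => sm_of_apply fun w =>
    sm_proj (hm i) (MSub.finsup hm (Finset.univ.erase i)) hY (w := w)
      (fun x hx => by rw [P0 x hx]; rfl) fun x hx => ⟨(dec_iff.1 hx).2 i, (P1 x hx).1 i w, by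
        have := (P1 x hx).2 w
        rw [← Finset.add_sum_erase _ _ (Finset.mem_univ i)] at this
        rw [← eq_sub_of_add_eq' this]
        exact sum_mem_biSup (D := fun j => D j x) fun j => (P1 x hx).1 j w⟩
  have PI : ∀ x ∈ Y, ∀ i s v, P (S.act s x) i (c.A s x v) = c.A s x (P x i v) :=
    fun x hx i s v => Dec.unique (hYi s x hx) (fun i => (P1 _ (hYi s x hx)).1 i _)
      (fun i => (hb.sub i).inv s x _ ((P1 x hx).1 i v))
      (by rw [(P1 _ (hYi s x hx)).2, ← map_sum, (P1 x hx).2]) i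
  have rk : ∀ i, ∀ x ∈ Y, (P x i : V →ₗ[k] V).rank = Module.finrank k (D i x) := fun i x hx => by
    rw [Module.finrank_eq_rank, LinearMap.rank]
    suffices h : (P x i : V →ₗ[k] V).range = D i x by rw [h]
    refine le_antisymm (by rintro _ ⟨v, rfl⟩; exact (P1 x hx).1 i v) fun v hv => ⟨v, ?_⟩
    have := Dec.proj_eq hx (P1 x hx).1 (P1 x hx).2 hv i
    rwa [Pi.single_eq_same] at this
  have rm : ∀ i, Measurable (Y.indicator fun x => Module.finrank k (D i x)) := fun i => by
    borelize (V →L[k] V)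
    refine measurable_of_Ici fun n => ?_
    convert (Pm i).measurable (isOpen_setOfPred_nat_le_rank n).measurableSet using 1
    ext x
    by_cases hx : x ∈ Y
    · simp only [mem_preimage, mem_Ici, indicator_of_mem hx, mem_setOf_eq, rk i x hx, Nat.cast_le]
    · simp [indicator_of_notMem hx, P0 x hx]
  choose d hd using fun i => S.ae_const (rm i) fun s x => by
    by_cases hx : x ∈ Y
    · rw [indicator_of_mem hx, indicator_of_mem (hYi s x hx), (hb.sub i).finrank_act]
    · rw [indicator_of_notMem hx, indicator_of_notMem (hYn s x hx)]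
  have hae : ∀ᵐ x ∂μ, x ∈ Y := hb.dec.mono fun x hx => by
    have := hx.1
    rwa [hE] at this
  refine ⟨Y ∩ ⋂ i, {x | Y.indicator (fun x => Module.finrank k (D i x)) x = d i}, fun i x => P x i,
    d, hY.inter (MeasurableSet.iInter fun i => rm i (measurableSet_singleton _)), ?_,
    fun s x hx => ⟨hYi s x hx.1, mem_iInter.2 fun i => ?_⟩, Pm, fun i => ?_, fun i s x => ?_,
    fun x hx => ⟨hx.1, fun i => ?_, (P1 x hx.1).1, (P1 x hx.1).2, PI x hx.1⟩⟩
  · filter_upwards [hae, ae_all_iff.2 hd] with x h1 h2 using ⟨h1, mem_iInter.2 h2⟩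
  · have := mem_iInter.1 hx.2 i
    rw [mem_setOf_eq, indicator_of_mem hx.1] at this
    rw [mem_setOf_eq, indicator_of_mem (hYi s x hx.1), (hb.sub i).finrank_act, this]
  · obtain ⟨x, h1, h2, h3⟩ := (hae.and ((hd i).and hb.dec)).exists
    rw [indicator_of_mem h1] at h2
    rw [← h2, pos_iff_ne_zero]
    exact fun e => h3.2 i (Submodule.finrank_eq_zero.1 e).le
  · refine log_max_le (c.B_nonneg s) (?_ : ‖P (S.act s x) i‖ ≤ _ * ‖P x i‖)
    by_cases hx : x ∈ Y
    · refine ContinuousLinearMap.opNorm_le_bound _ (by positivity) fun w => ?_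
      have h1 := c.bound (-s) (S.act s x) w (hE _ ▸ Submodule.mem_top)
      rw [← c.apply_neg s (w := w) (hE _ ▸ Submodule.mem_top), PI x hx,
        c.apply_neg s (hE _ ▸ Submodule.mem_top)]
      refine (c.bound s x _ (hE _ ▸ Submodule.mem_top)).trans ((mul_le_mul_of_nonneg_left
        (((P x i).le_opNorm _).trans (mul_le_mul_of_nonneg_left h1 (norm_nonneg _)))
        (Real.exp_pos _).le).trans_eq ?_)
      rw [B, Real.exp_add]; ring
    · rw [P0 _ (hYn s x hx), P0 x hx]; simp
  · have := mem_iInter.1 hx.2 i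
    rwa [mem_setOf_eq, indicator_of_mem hx.1] at this

end Coc

end Pool.Agent.P.MP_d483fb_an.Os
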