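import Pool.Agent.P.MP_d483fb_an.Os.Gap

open MeasureTheory Filter Topology Set

set_option linter.unusedSectionVars false
set_option linter.unusedVariables false
set_option linter.deprecated false

noncomputable section

namespace Pool.Agent.P.MP_d483fb_an.Os

variable {k Γ X V : Type} [NontriviallyNormedField k] [CompleteSpace k] [AddCommGroup Γ]
  [MeasurableSpace X] {μ : Measure X} [NormedAddCommGroup V] [NormedSpace k V]
  [FiniteDimensional k V] [ProperSpace V]

theorem Dec.empty {W : Submodule k V} (h : W ≤ ⊥) : Dec (fun _ : Empty => (⊥ : Submodule k V)) W :=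
  ⟨fun i => i.elim, fun w hw => ⟨fun i => i.elim, fun i => i.elim, by
    rw [(Submodule.mem_bot k).1 (h hw)]; simp⟩, fun _ _ _ i => i.elim⟩

theorem Dec.unit (W : Submodule k V) : Dec (fun _ : Unit => W) W :=
  ⟨fun _ => le_rfl, fun w hw => ⟨fun _ => w, fun _ => hw, by simp⟩, fun v _ h i => by simpa using h⟩

theorem Dec.option {ι : Type} [Fintype ι] {D : ι → Submodule k V} {F G W : Submodule k V}
    (h : Dec D G) (hF : F ≤ W) (hG : G ≤ W) (h1 : ∀ v ∈ F, v ∈ G → v = 0)
    (h2 : ∀ w ∈ W, ∃ f ∈ F, w - f ∈ G) : Dec (fun o : Option ι => o.elim F D) W := by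
  refine ⟨fun o => ?_, fun w hw => ?_, fun v hv h0 => ?_⟩
  · cases o with
    | none => exact hF
    | some i => exact (h.le i).trans hG
  · obtain ⟨f, hf, hg⟩ := h2 w hw
    obtain ⟨v, hv, e⟩ := h.span _ hg
    refine ⟨fun o => o.elim f v, fun o => ?_, ?_⟩
    · cases o with
      | none => exact hf
      | some i => exact hv i
    · rw [Fintype.sum_option]
      simp only [Option.elim, e, add_sub_cancel]
  · rw [Fintype.sum_option] at h0
    have h3 : ∑ i, v (some i) ∈ G := sum_mem fun i _ => h.le i (hv (some i))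
    have h4 : v none = 0 := h1 _ (hv none) (eq_neg_of_add_eq_zero_left h0 ▸ neg_mem h3)
    rw [h4, zero_add] at h0
    intro o
    cases o with
    | none => exact h4
    | some i => exact h.ind (fun i => v (some i)) (fun i => hv (some i)) h0 i

theorem Dec.sigma {ι : Type} [Fintype ι] {κ : ι → Type} [∀ i, Fintype (κ i)]
    {D : ι → Submodule k V} {W : Submodule k V} (h : Dec D W) {D' : ∀ i, κ i → Submodule k V}
    (h' : ∀ i, Dec (D' i) (D i)) : Dec (fun p : Σ i, κ i => D' p.1 p.2) W := by
  refine ⟨fun p => ((h' p.1).le p.2).trans (h.le p.1), fun w hw => ?_, fun v hv h0 p => ?_⟩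
  · obtain ⟨v, hv, e⟩ := h.span w hw
    choose u hu eu using fun i => (h' i).span _ (hv i)
    refine ⟨fun p => u p.1 p.2, fun p => hu p.1 p.2, ?_⟩
    rw [Fintype.sum_sigma]
    simp only [eu, e]
  · rw [Fintype.sum_sigma] at h0
    exact (h' p.1).ind (fun j => v ⟨p.1, j⟩) (fun j => hv ⟨p.1, j⟩) (h.ind _
      (fun i => sum_mem fun j _ => (h' i).le j (hv ⟨i, j⟩)) h0 p.1) p.2

variable {S : Sys Γ X μ}

namespace Coc

/-- invariant fields that decompose the bundle almost everywhere -/
structure Blk (c : Coc S k V) {ι : Type} [Fintype ι] (D : ι → X → Submodule k V) : Prop where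
  sub : ∀ i, c.Sub (D i)
  dec : ∀ᵐ x ∂μ, Dec (fun i => D i x) (c.E x) ∧ ∀ i, ¬ D i x ≤ ⊥

theorem blk_empty {c : Coc S k V} (h : ∀ᵐ x ∂μ, c.E x ≤ ⊥) :
    c.Blk fun _ : Empty => O k V X :=
  ⟨fun i => i.elim, h.mono fun x hx => ⟨Dec.empty hx, fun i => i.elim⟩⟩

theorem one_split [IsProbabilityMeasure μ] (a : Γ) (d : ℕ) : ∀ c : Coc S k V,
    (∀ᵐ x ∂μ, Module.finrank k (c.E x) ≤ d) →
    ∃ (ι : Type) (_ : Fintype ι) (D : ι → X → Submodule k V) (lam : ι → ℝ), c.Blk D ∧
      Function.Injective lam ∧ ∀ i, c.Exact (D i) a (lam i) := by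
  induction d with
  | zero =>
    intro c h
    exact ⟨Empty, inferInstance, _, fun i => i.elim, blk_empty (h.mono fun x hx =>
      (Submodule.finrank_eq_zero.1 (Nat.le_zero.1 hx)).le), fun i => i.elim, fun i => i.elim⟩
  | succ d ih =>
    intro c h
    rcases c.sub_E.ae_or c.sub_O with hne | hne
    swap
    · exact ⟨Empty, inferInstance, _, fun i => i.elim, blk_empty hne, fun i => i.elim,
        fun i => i.elim⟩
    obtain ⟨l, G, hG, hex, h1⟩ := c.two_block a hne
    have hF := c.sub_O.Le (-a) (-l)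
    obtain ⟨ι, _, D, lam, hb, hinj, hex'⟩ := ih (c.restrict G hG) (by
      filter_upwards [h, h1] with x hx ⟨x1, x2, x3⟩
      refine Nat.lt_succ_iff.1 (lt_of_lt_of_le (Submodule.finrank_lt_finrank_of_lt
        (lt_of_le_of_ne (hG.le x) fun e => x1 fun v hv => ?_)) hx)
      exact x2 v hv (e.ge (hF.le x hv)))
    have hne' : ∀ i, lam i ≠ l := fun i e => by
      obtain ⟨x, ⟨-, y1⟩, ⟨-, x2, -⟩, y2⟩ := (hb.dec.and (h1.and (hex' i))).exists
      refine y1 i fun v hv => x2 v ?_ ((hb.sub i).le x hv)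
      exact mem_Le.2 ⟨hG.le x ((hb.sub i).le x hv), fun ε hε => e ▸ (y2 v hv ε hε).2⟩
    refine ⟨Option ι, inferInstance, fun o => o.elim (c.Le (O k V X) (-a) (-l)) D,
      fun o => o.elim l lam, ⟨fun o => ?_, ?_⟩, fun o o' e => ?_, fun o => ?_⟩
    · cases o with
      | none => exact hF
      | some i => exact Sub.of_restrict (h := hG) (hb.sub i)
    · filter_upwards [hb.dec, h1] with x ⟨y1, y2⟩ ⟨x1, x2, x3⟩
      refine ⟨?_, fun o => ?_⟩
      · convert y1.option (hF.le x) (hG.le x) x2 x3 using 2 with o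
        cases o <;> rfl
      · cases o with
        | none => exact x1
        | some i => exact y2 i
    · cases o with
      | none =>
        cases o' with
        | none => rfl
        | some j => exact absurd e.symm (hne' j)
      | some i =>
        cases o' with
        | none => exact absurd e (hne' i)
        | some j => exact congrArg some (hinj e)
    · cases o with
      | none => exact hex
      | some i => exact hex' i

theorem multi_split [IsProbabilityMeasure μ] (c : Coc S k V) (m : ℕ) : ∀ a : Fin m → Γ,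
    ∃ (ι : Type) (_ : Fintype ι) (D : ι → X → Submodule k V) (lam : ι → Fin m → ℝ), c.Blk D ∧
      Function.Injective lam ∧ ∀ i j, c.Exact (D i) (a j) (lam i j) := by
  induction m with
  | zero =>
    intro a
    rcases c.sub_E.ae_or c.sub_O with hne | hne
    · exact ⟨Unit, inferInstance, fun _ => c.E, fun _ => 0, ⟨fun _ => c.sub_E,
        hne.mono fun x hx => ⟨Dec.unit _, fun _ => hx⟩⟩, fun _ _ _ => rfl, fun _ j => j.elim0⟩
    · exact ⟨Empty, inferInstance, _, fun i => i.elim, blk_empty hne, fun i => i.elim,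
        fun i => i.elim⟩
  | succ m ih =>
    intro a
    obtain ⟨ι, _, D, lam, hb, hinj, hex⟩ := ih (Fin.tail a)
    choose κ hκ D' lam' hb' hinj' hex' using fun i => one_split (a 0) (Module.finrank k V)
      (c.restrict (D i) (hb.sub i)) (ae_of_all _ fun x => Submodule.finrank_le _)
    refine ⟨Σ i, κ i, inferInstance, fun p => D' p.1 p.2,
      fun p => Fin.cons (lam' p.1 p.2) (lam p.1), ⟨fun p => Sub.of_restrict (h := hb.sub p.1) ((hb' p.1).sub p.2), ?_⟩,
      ?_, fun p j => ?_⟩
    · filter_upwards [hb.dec, ae_all_iff.2 fun i => (hb' i).dec] with x hx hx'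
      exact ⟨hx.1.sigma (D' := fun i j => D' i j x) fun i => (hx' i).1, fun p => (hx' p.1).2 p.2⟩
    · rintro ⟨i, j⟩ ⟨i', j'⟩ e
      obtain ⟨e1, e2⟩ := Fin.cons_inj.1 e
      obtain rfl := hinj e2
      obtain rfl := hinj' i e1
      rfl
    · refine Fin.cases (hex' p.1 p.2) (fun j => ?_) j
      exact (hex p.1 j).mono fun x hx v hv => hx v (((hb' p.1).sub p.2).le x hv)

end Coc

end Pool.Agent.P.MP_d483fb_an.Os
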