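import Pool.Agent.P.MP_d483fb_an.Os.Coc

open MeasureTheory Filter Topology Set

set_option linter.unusedSectionVars false
set_option linter.unusedVariables false
set_option linter.deprecated false

noncomputable section

namespace Pool.Agent.P.MP_d483fb_an.Os

variable {k Γ X V : Type} [NontriviallyNormedField k] [CompleteSpace k] [AddCommGroup Γ]
  [MeasurableSpace X] {μ : Measure X} [NormedAddCommGroup V] [NormedSpace k V]
  [FiniteDimensional k V] [ProperSpace V]

variable {S : Sys Γ X μ}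

namespace Coc

variable {c : Coc S k V} {N D D' : X → Submodule k V}

/-- the constant of comparison along the action -/
def B (c : Coc S k V) (s : Γ) : ℝ := c.K s + c.K (-s)

theorem B_nonneg (c : Coc S k V) (s : Γ) : 0 ≤ c.B s := add_nonneg (c.K_nonneg _) (c.K_nonneg _)

theorem log_max_le {y z B : ℝ} (hB : 0 ≤ B) (h : y ≤ Real.exp B * z) :
    Real.log (max 1 y) ≤ Real.log (max 1 z) + B := by
  have h1 : (0 : ℝ) < max 1 z := lt_max_of_lt_left one_pos
  rw [Real.log_le_iff_le_exp (lt_max_of_lt_left one_pos), Real.exp_add, Real.exp_log h1, mul_comm]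
  exact max_le (one_le_mul_of_one_le_of_one_le (Real.one_le_exp hB) (le_max_left _ _))
    (h.trans (mul_le_mul_of_nonneg_left (le_max_right _ _) (Real.exp_pos _).le))

theorem Sub.unif (hN : c.Sub N) {a : Γ} {r : ℝ} {x : X} (h : c.E x ≤ c.Fw N a r x) :
    ∃ C, ∀ n : ℕ, c.nq N (n • a) x * Real.exp (-(r * n)) ≤ C := by
  obtain ⟨C, hC0, hC⟩ := unif_bound (k := k) (W := c.E x)
    (p := fun n v => qn (N (S.act (n • a) x)) (c.A (n • a) x v) * Real.exp (-(r * n)))
    (fun n => by rw [map_zero, qn_eq_zero.2 (zero_mem _), zero_mul])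
    (fun n v w => by
      rw [map_add, ← add_mul]
      exact mul_le_mul_of_nonneg_right (qn_add_le _ _ _) (Real.exp_pos _).le)
    (fun n t v => by rw [map_smul, qn_smul, mul_assoc])
    (fun v hv => by
      obtain ⟨M, hM⟩ := (h hv).2
      exact ⟨M, fun n => by
        rw [Real.exp_neg, mul_inv_le_iff₀ (Real.exp_pos _)]; exact hM n⟩)
  refine ⟨C, fun n => ?_⟩
  rw [Real.exp_neg, mul_inv_le_iff₀ (Real.exp_pos _)]
  refine nq_min (by positivity) fun v hv => ?_
  obtain ⟨w, hw, e1, e2⟩ := hN.rep (n • a) hv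
  have := hC n w hw
  rw [e1, e2, Real.exp_neg, mul_inv_le_iff₀ (Real.exp_pos _)] at this
  exact this.trans_eq (by ring)

theorem Sub.lip_bound (hN : c.Sub N) {a : Γ} {r : ℝ} (h : ∀ᵐ x ∂μ, c.E x ≤ c.Fw N a r x) :
    ∃ q : X → ℝ, Measurable q ∧ (∀ x, 0 ≤ q x) ∧ S.Lip c.B q ∧
      ∀ᵐ x ∂μ, ∀ n : ℕ, c.nq N (n • a) x ≤ Real.exp (q x + r * n) := by
  refine ⟨fun x => ⨆ n : ℕ, Real.log (max 1 (c.nq N (n • a) x * Real.exp (-(r * n)))),
    Measurable.iSup fun n => (measurable_const.max ((hN.nq_meas _).mul_const _)).log,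
    fun x => Real.iSup_nonneg fun n => Real.log_nonneg (le_max_left _ _),
    S.sup_lip c.B_nonneg fun n s x => log_max_le (c.B_nonneg s) ?_, ?_⟩
  · rw [← mul_assoc]
    exact mul_le_mul_of_nonneg_right (hN.nq_act _ s x) (Real.exp_pos _).le
  · filter_upwards [h] with x hx n
    obtain ⟨C, hC⟩ := hN.unif hx
    have hb : BddAbove (range fun n : ℕ =>
        Real.log (max 1 (c.nq N (n • a) x * Real.exp (-(r * n))))) := by
      refine ⟨Real.log (max 1 C), ?_⟩
      rintro _ ⟨n, rfl⟩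
      exact Real.log_le_log (lt_max_of_lt_left one_pos) (max_le_max le_rfl (hC n))
    have h1 := le_ciSup hb n
    rw [Real.log_le_iff_le_exp (lt_max_of_lt_left one_pos), max_le_iff, Real.exp_neg,
      mul_inv_le_iff₀ (Real.exp_pos _), ← Real.exp_add] at h1
    simpa only [Real.exp_neg] using h1.2

theorem Sub.orbit_bound [IsFiniteMeasure μ] (hN : c.Sub N) {a : Γ} {r : ℝ}
    (h : ∀ᵐ x ∂μ, c.E x ≤ c.Fw N a r x) (b : Γ) {ε : ℝ} (hε : 0 < ε) :
    ∀ᵐ x ∂μ, ∃ M : ℝ, 0 < M ∧ ∀ i n : ℕ,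
      c.nq N (n • a) (S.act (i • b) x) ≤ M * Real.exp (r * n + ε * i) := by
  obtain ⟨q, hq, -, hl, h1⟩ := hN.lip_bound h
  obtain ⟨q', -, -, h2⟩ := S.temper1 c.B_nonneg hq hl b hε
  filter_upwards [h2, ae_all_iff.2 fun i : ℕ => S.ae_act h1 (i • b)] with x hx2 hx1
  refine ⟨Real.exp (q' x), Real.exp_pos _, fun i n => (hx1 i n).trans ?_⟩
  have := hx2 i
  rw [natCast_zsmul, Int.cast_natCast, Nat.abs_cast] at this
  rw [← Real.exp_add, Real.exp_le_exp]
  linarith

/-- logarithm of the norm -/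
def lg (c : Coc S k V) (N : X → Submodule k V) (s : Γ) (x : X) : ℝ := Real.log (c.nq N s x)

theorem Sub.lg_abs (hN : c.Sub N) (s : Γ) (x : X) : |c.lg N s x| ≤ c.B s := by
  unfold lg B
  by_cases h : c.E x ≤ N x
  · rw [hN.nq_zero s h, Real.log_zero, abs_zero]
    exact c.B_nonneg s
  · have h1 := hN.exp_le_nq s h
    have h2 := (Real.exp_pos _).trans_le h1
    rw [← Real.le_log_iff_exp_le h2] at h1
    have h3 := (Real.log_le_iff_le_exp h2).2 (hN.nq_le_exp s x)
    rw [abs_le]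
    constructor <;> linarith [c.K_nonneg s, c.K_nonneg (-s)]

theorem Sub.lg_add (hN : c.Sub N) (s t : Γ) (x : X) : c.lg N (s + t) x ≤ c.lg N t x + c.K s := by
  unfold lg
  by_cases h : c.E x ≤ N x
  · rw [hN.nq_zero _ h, hN.nq_zero _ h, Real.log_zero, zero_add]
    exact c.K_nonneg s
  · rw [Real.log_le_iff_le_exp ((Real.exp_pos _).trans_le (hN.exp_le_nq _ h)), Real.exp_add,
      Real.exp_log ((Real.exp_pos _).trans_le (hN.exp_le_nq _ h)), mul_comm]
    exact (hN.nq_add s t x).trans (mul_le_mul_of_nonneg_right (hN.nq_le_exp s _) (nq_nonneg _ _))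

theorem Sub.lg_meas (hN : c.Sub N) (s : Γ) : Measurable (c.lg N s) := (hN.nq_meas s).log

theorem Sub.lg_int [IsFiniteMeasure μ] (hN : c.Sub N) (s : Γ) : Integrable (c.lg N s) μ :=
  Integrable.of_bound (hN.lg_meas s).aestronglyMeasurable _ (ae_of_all _ (hN.lg_abs s))

theorem Sub.nq_zero_le (hN : c.Sub N) (x : X) : c.nq N 0 x ≤ 1 :=
  nq_min zero_le_one fun v hv => by rw [S.zero, c.zero x v hv, one_mul]

/-- mean growth of the norms below the top exponent -/
theorem Sub.int_lg [IsProbabilityMeasure μ] (hN : c.Sub N) {a : Γ} {r : ℝ}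
    (h : ∀ᵐ x ∂μ, ¬ c.E x ≤ c.Fw N a r x) {m : ℕ} (hm : 0 < m) :
    r * m ≤ ∫ x, c.lg N (m • a) x ∂μ := by
  have key := Pool.Agent.P.MP_eeb913_an.U.erg_max (S.mp (m • a))
    ((hN.lg_meas (m • a)).sub_const (r * m)) ((hN.lg_int _).sub (integrable_const _)) ?_
  · rwa [integral_sub (hN.lg_int _) (integrable_const _), integral_const, probReal_univ, one_smul,
      sub_nonneg] at key
  filter_upwards [h] with x hx
  by_contra hn
  push Not at hn
  refine hx fun v hv => ⟨hv, Real.exp ((c.K a + |r|) * m) * qn (N x) v, fun n => ?_⟩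
  have h1 : ∀ j : ℕ, c.nq N (j • m • a) x ≤
      Real.exp (birkhoffSum (S.act (m • a)) (c.lg N (m • a)) j x) := by
    intro j
    induction j with
    | zero => simpa using hN.nq_zero_le x
    | succ j ih =>
      rw [succ_nsmul', birkhoffSum_succ, Real.exp_add, mul_comm, S.iter]
      exact (hN.nq_add _ _ x).trans
        (mul_le_mul (Real.le_exp_log _) ih (nq_nonneg _ _) (Real.exp_pos _).le)
  have h2 := hn (n / m)
  simp only [birkhoffSum, Finset.sum_sub_distrib, Finset.sum_const, Finset.card_range,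
    nsmul_eq_mul, sub_nonpos] at h2
  have h3 := (h1 (n / m)).trans (Real.exp_le_exp.2 h2)
  have e : n • a = (n % m) • a + (n / m) • m • a := by
    rw [smul_smul, ← add_smul, Nat.mod_add_div']
  have e2 : (n : ℝ) = (n % m : ℕ) + (n / m : ℕ) * m := by
    exact_mod_cast (Nat.mod_add_div' n m).symm
  have h4 : ((n % m : ℕ) : ℝ) ≤ m := by exact_mod_cast (Nat.mod_lt n hm).le
  have h5 : (0 : ℝ) ≤ (n % m : ℕ) := Nat.cast_nonneg _
  rw [e]
  refine (hN.qbound_pow a _ _ hv).trans ((mul_le_mul_of_nonneg_left ((hN.nq_le _ hv).trans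
    (mul_le_mul_of_nonneg_right h3 (qn_nonneg _ _))) (Real.exp_pos _).le).trans ?_)
  rw [← mul_assoc, ← Real.exp_add, mul_right_comm, ← Real.exp_add]
  refine mul_le_mul_of_nonneg_right (Real.exp_le_exp.2 ?_) (qn_nonneg _ _)
  rw [e2]
  nlinarith [mul_le_mul_of_nonneg_left h4 (c.K_nonneg a), mul_le_mul_of_nonneg_left h4 (abs_nonneg r),
    mul_le_mul_of_nonneg_right (neg_abs_le r) h5]

/-- good times give a backward contracting vector -/
theorem Sub.back_vec (hN : c.Sub N) {a : Γ} {r : ℝ} {x : X} (hx : ¬ c.E x ≤ N x)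
    (h : ∃ᶠ n : ℕ in atTop, ∀ j ≤ n,
      c.lg N ((n - j) • a) (S.act (n • (-a)) x) - r * (n - j : ℕ) ≤
        c.lg N (n • a) (S.act (n • (-a)) x) - r * n) : ¬ c.Fw N (-a) (-r) x ≤ N x := by
  obtain ⟨t, ht⟩ := NormedField.exists_one_lt_norm k
  have key : ∀ n : ℕ, (∀ j ≤ n, c.lg N ((n - j) • a) (S.act (n • (-a)) x) - r * (n - j : ℕ) ≤
      c.lg N (n • a) (S.act (n • (-a)) x) - r * n) → ∃ w ∈ c.E x, ‖w‖ ≤ 1 ∧ 1 / ‖t‖ ≤ qn (N x) w ∧
      ∀ j ≤ n, qn (N (S.act (j • (-a)) x)) (c.A (j • (-a)) x w) ≤ 2 * Real.exp (-r * j) := by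
    intro n hn
    set y := S.act (n • (-a)) x with hy
    have hyx : S.act (n • a) y = x := by rw [hy, neg_nsmul, S.act_neg]
    have hyE : ¬ c.E y ≤ N y := c.sub_E.not_le_act hN _ hx
    have hp : ∀ s, 0 < c.nq N s y := fun s => (Real.exp_pos _).trans_le (hN.exp_le_nq s hyE)
    obtain ⟨v, hv, hlt⟩ : ∃ v ∈ c.E y, c.nq N (n • a) y / 2 * qn (N y) v <
        qn (N (S.act (n • a) y)) (c.A (n • a) y v) := by
      by_contra hc
      push Not at hc
      linarith [nq_min (half_pos (hp (n • a))).le hc, hp (n • a)]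
    have hw0 : c.A (n • a) y v ∈ c.E x := hyx ▸ c.map _ _ _ hv
    rw [hyx] at hlt
    obtain ⟨u, hu, eu⟩ := qn_exists (N x) (c.A (n • a) y v)
    have hpos : 0 < qn (N x) (c.A (n • a) y v) :=
      (mul_nonneg (half_pos (hp _)).le (qn_nonneg _ _)).trans_lt hlt
    obtain ⟨d, -, d1, d2, -⟩ := rescale_to_shell ht one_pos
      (x := c.A (n • a) y v - u) (norm_pos_iff.1 (eu ▸ hpos))
    have e1 : qn (N x) (d • (c.A (n • a) y v - u)) = ‖d • (c.A (n • a) y v - u)‖ := by
      rw [qn_smul, qn_sub_mem hu, norm_smul, eu]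
    refine ⟨_, Submodule.smul_mem _ d (sub_mem hw0 (hN.le x hu)), d1.le, e1 ▸ d2, fun j hj => ?_⟩
    have e2 : (n - j) • a = j • (-a) + n • a := by
      rw [neg_nsmul, neg_add_eq_sub, eq_sub_iff_add_eq, ← add_smul, Nat.sub_add_cancel hj]
    have h1 := hN.nq_le ((n - j) • a) hv
    have h2 := hn j hj
    unfold lg at h2
    rw [Nat.cast_sub hj] at h2
    have h3 : c.nq N ((n - j) • a) y ≤ c.nq N (n • a) y * Real.exp (-r * j) := by
      rw [← Real.exp_log (hp _), ← Real.exp_log (hp (n • a)), ← Real.exp_add, Real.exp_le_exp]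
      linarith
    rw [e2] at h1 h3
    rw [c.add _ _ _ _ hv, S.add, hyx] at h1
    rw [norm_smul, eu] at d1
    rw [map_smul, qn_smul, map_sub, qn_sub_mem (hN.inv _ x u hu)]
    have h4 := h1.trans (mul_le_mul_of_nonneg_right h3 (qn_nonneg _ _))
    have h5 : c.nq N (n • a) y * Real.exp (-r * j) * qn (N y) v ≤
        qn (N x) (c.A (n • a) y v) * (2 * Real.exp (-r * j)) := by
      nlinarith [Real.exp_pos (-r * j)]
    refine (mul_le_mul_of_nonneg_left (h4.trans h5) (norm_nonneg d)).trans ?_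
    rw [← mul_assoc]
    exact mul_le_of_le_one_left (by positivity) d1.le
  obtain ⟨φ, hφ, h1⟩ := extraction_of_frequently_atTop h
  choose w w1 w2 w3 w4 using fun i => key (φ i) (h1 i)
  obtain ⟨v, -, ψ, hψ, hl⟩ := (isCompact_closedBall (0 : V) 1).tendsto_subseq
    (x := w) fun i => mem_closedBall_zero_iff.2 (w2 i)
  intro hle
  have hv : v ∈ c.Fw N (-a) (-r) x := by
    refine ⟨(c.E x).closed_of_finiteDimensional.mem_of_tendsto hl
      (Eventually.of_forall fun i => w1 _), 2, fun j => ?_⟩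
    refine le_of_tendsto ((((qn_cont _).comp (c.A _ x).continuous).tendsto v).comp hl) ?_
    filter_upwards [eventually_ge_atTop j] with i hi
    exact w4 _ j (hi.trans ((hψ.id_le i).trans (hφ.id_le _)))
  have h2 : 1 / ‖t‖ ≤ qn (N x) v :=
    ge_of_tendsto' (((qn_cont _).tendsto v).comp hl) fun i => w3 _
  rw [qn_eq_zero.2 (hle hv)] at h2
  exact absurd h2 (not_le.2 (by positivity))

theorem Sub.back_ae [IsProbabilityMeasure μ] (hN : c.Sub N) {a : Γ} {r r' : ℝ} (hr : r < r')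
    (hne : ∀ᵐ x ∂μ, ¬ c.E x ≤ N x) (h : ∀ᵐ x ∂μ, ¬ c.E x ≤ c.Fw N a r' x) :
    ∀ᵐ x ∂μ, ¬ c.Fw N (-a) (-r) x ≤ N x := by
  refine ((hN.Fw (-a) (-r)).ae_or hN).resolve_right fun hc => ?_
  refine good_times (S.mp (-a)) (u := fun n x => c.lg N (n • a) (S.act (n • (-a)) x) - r * n)
    (fun n => ((hN.lg_meas _).comp (S.meas _)).sub_const _)
    (fun n => ((S.mp _).integrable_comp_of_integrable (hN.lg_int _)).sub (integrable_const _))
    (B := c.K a + |r|) (add_nonneg (c.K_nonneg a) (abs_nonneg r)) (sub_pos.2 hr)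
    (fun x => ?_) (fun n x => ?_) (fun n => ?_) ?_
  · simpa [lg] using Real.log_nonpos (nq_nonneg _ _) (hN.nq_zero_le _)
  · have := hN.lg_add a (n • a) (S.act ((n + 1) • (-a)) x)
    rw [← succ_nsmul'] at this
    simp only [← S.add, ← succ_nsmul, Nat.cast_succ]
    linarith [neg_abs_le r]
  · have hi : Integrable (fun x => c.lg N (n • a) (S.act (n • (-a)) x)) μ :=
      (S.mp _).integrable_comp_of_integrable (hN.lg_int _)
    rw [integral_sub hi (integrable_const _), integral_const, probReal_univ, one_smul,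
      Pool.Agent.P.MP_eeb913_an.U.erg_comp (S.mp _) (hN.lg_meas _)]
    rcases n.eq_zero_or_pos with rfl | hn
    · have : ∀ᵐ x ∂μ, 0 ≤ c.lg N (0 • a) x := by
        filter_upwards [hne] with x hx
        obtain ⟨v, hv, hn⟩ := SetLike.not_le_iff_exists.1 hx
        have := hN.nq_le (0 • a) hv
        rw [zero_smul, S.zero, c.zero x v hv, le_mul_iff_one_le_left (qn_pos hn)] at this
        rw [zero_smul]
        exact Real.log_nonneg this
      simpa using integral_nonneg_of_ae this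
    · linarith [hN.int_lg h hn]
  · filter_upwards [hc, hne] with x hx1 hx2 hf
    refine hN.back_vec hx2 (hf.mono fun n hn j hj => ?_) hx1
    have := hn j hj
    rwa [S.iter, ← S.add, ← add_smul, Nat.sub_add_cancel hj] at this

/-- the top exponent modulo `N` -/
theorem Sub.top [IsProbabilityMeasure μ] (hN : c.Sub N) (a : Γ) (hne : ∀ᵐ x ∂μ, ¬ c.E x ≤ N x) :
    ∃ l : ℝ, (∀ r, l < r → ∀ᵐ x ∂μ, c.E x ≤ c.Fw N a r x) ∧
      ∀ᵐ x ∂μ, ¬ c.Le N (-a) (-l) x ≤ N x := by
  let R : Set ℝ := {r | ∀ᵐ x ∂μ, c.E x ≤ c.Fw N a r x}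
  have hR : R.Nonempty := ⟨c.K a, ae_of_all _ fun x v hv => ⟨hv, qn (N x) v, fun n => by
    have := hN.qbound_pow a n 0 hv
    rwa [add_zero, S.zero, c.zero x v hv, mul_comm] at this⟩⟩
  have hb : BddBelow R := by
    refine ⟨-c.K (-a), fun r hr => not_lt.1 fun hlt => ?_⟩
    obtain ⟨x, hx1, hx2⟩ := (hne.and hr).exists
    obtain ⟨v, hv, hn⟩ := SetLike.not_le_iff_exists.1 hx1
    obtain ⟨M, hM⟩ := (hx2 hv).2
    have h1 : ∀ n : ℕ, qn (N x) v ≤ M * Real.exp (r + c.K (-a)) ^ n := fun n => by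
      have := hN.qbound_pow (-a) n (n • a) hv
      rw [neg_nsmul, neg_add_cancel, S.zero, c.zero x v hv] at this
      refine this.trans ((mul_le_mul_of_nonneg_left (hM n) (Real.exp_pos _).le).trans_eq ?_)
      rw [← Real.exp_nat_mul, mul_left_comm, ← Real.exp_add]
      congr 2; ring
    have h2 := (tendsto_pow_atTop_nhds_zero_of_lt_one (Real.exp_pos (r + c.K (-a))).le
      (Real.exp_lt_one_iff.2 (by linarith))).const_mul M
    rw [mul_zero] at h2
    exact absurd (ge_of_tendsto' h2 h1) (not_le.2 (qn_pos hn))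
  refine ⟨sInf R, fun r hr => ?_, ?_⟩
  · obtain ⟨r', h1, h2⟩ := exists_lt_of_csInf_lt hR hr
    have h3 : ∀ᵐ x ∂μ, c.E x ≤ c.Fw N a r' x := h1
    exact h3.mono fun x hx => hx.trans (Fw_mono a h2.le x)
  · have key : ∀ j : ℕ, ∀ᵐ x ∂μ, ¬ c.Fw N (-a) (-sInf R + 1 / ((j : ℝ) + 1)) x ≤ N x := by
      intro j
      have h0 : (0 : ℝ) < 1 / ((j : ℝ) + 1) := Nat.one_div_pos_of_nat
      have := hN.back_ae (a := a) (r := sInf R - 1 / ((j : ℝ) + 1))
        (r' := sInf R - 1 / ((j : ℝ) + 1) / 2) (by linarith) hne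
        ((c.sub_E.ae_or (hN.Fw a _)).resolve_right fun hc => by
          have := csInf_le hb hc
          linarith)
      rwa [neg_sub, sub_eq_neg_add] at this
    filter_upwards [ae_all_iff.2 key] with x hx hle
    let f : ℕ →o (Submodule k V)ᵒᵈ := ⟨fun j => OrderDual.toDual
      (c.Fw N (-a) (-sInf R + 1 / ((j : ℝ) + 1)) x), fun i j hij => Fw_mono _
        (add_le_add le_rfl (Nat.one_div_le_one_div hij)) x⟩
    obtain ⟨n, hn⟩ := IsArtinian.monotone_stabilizes f
    refine hx n (le_trans (le_iInf fun j => ?_) hle)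
    rcases le_total n j with h | h
    · exact (congrArg OrderDual.ofDual (hn j h)).le
    · exact f.monotone h

end Coc

end Pool.Agent.P.MP_d483fb_an.Os
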